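import Pool.Agent.Lib.MP_16285c_agN.Degr.Spec

/-!
# Counting monomials
-/

set_option autoImplicit false

namespace Pool.Agent.Lib.MP_16285c_agN

namespace DegrCntM

theorem fin (s a : ℕ) : Finite {b : Fin s → ℕ // ∑ i, b i ≤ a} := by
  have h : ∀ (b : {b : Fin s → ℕ // ∑ i, b i ≤ a}) (i : Fin s), b.1 i < a + 1 := by
    intro b i
    have h1 : b.1 i ≤ ∑ j, b.1 j := Finset.single_le_sum (f := b.1) (fun _ _ => Nat.zero_le _)
      (Finset.mem_univ i)
    have h2 := b.2
    omega
  refine Finite.of_injective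
    (fun b : {b : Fin s → ℕ // ∑ i, b i ≤ a} => fun i : Fin s => (⟨b.1 i, h b i⟩ : Fin (a + 1)))
    fun b c hbc => ?_
  apply Subtype.ext
  funext i
  have := congrFun hbc i
  simpa using this

end DegrCntM

theorem tCnt : StmtCnt := by
  refine ⟨fun s a => ?_, fun s a b hab => ?_, fun s D N => ?_⟩
  · haveI := DegrCntM.fin s a
    haveI : Nonempty {b : Fin s → ℕ // ∑ i, b i ≤ a} := ⟨⟨fun _ => 0, by simp⟩⟩
    exact Nat.card_pos
  · haveI := DegrCntM.fin s b
    refine Nat.card_le_card_of_injective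
      (fun x : {b : Fin s → ℕ // ∑ i, b i ≤ a} => (⟨x.1, x.2.trans hab⟩ :
        {c : Fin s → ℕ // ∑ i, c i ≤ b})) fun x y hxy => ?_
    apply Subtype.ext
    have h := congrArg Subtype.val hxy
    exact h
  · haveI := DegrCntM.fin s N
    have hdiv : ∀ x : {b : Fin s → ℕ // ∑ i, b i ≤ (D + 1) * N}, ∑ i, x.1 i / (D + 1) ≤ N := by
      intro x
      have h1 : (D + 1) * ∑ i, x.1 i / (D + 1) ≤ ∑ i, x.1 i := by
        rw [Finset.mul_sum]
        exact Finset.sum_le_sum fun i _ => Nat.mul_div_le _ _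
      exact Nat.le_of_mul_le_mul_left (h1.trans x.2) (Nat.succ_pos D)
    have hcard : Nat.card ((Fin s → Fin (D + 1)) × {b : Fin s → ℕ // ∑ i, b i ≤ N}) =
        (D + 1) ^ s * cnt s N := by
      rw [Nat.card_prod, Nat.card_eq_fintype_card, Fintype.card_fun, Fintype.card_fin,
        Fintype.card_fin]
      rfl
    rw [← hcard]
    refine Nat.card_le_card_of_injective
      (fun x : {b : Fin s → ℕ // ∑ i, b i ≤ (D + 1) * N} =>
        ((fun i => (⟨x.1 i % (D + 1), Nat.mod_lt _ (Nat.succ_pos D)⟩ : Fin (D + 1))),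
          (⟨fun i => x.1 i / (D + 1), hdiv x⟩ : {b : Fin s → ℕ // ∑ i, b i ≤ N}))) fun x y hxy => ?_
    apply Subtype.ext
    funext i
    have h1 := congrArg Prod.fst hxy
    have h2 := congrArg Prod.snd hxy
    have h3 : x.1 i % (D + 1) = y.1 i % (D + 1) := by
      have := congrFun h1 i
      simpa using this
    have h4 : x.1 i / (D + 1) = y.1 i / (D + 1) := by
      have := congrFun (congrArg Subtype.val h2) i
      simpa using this
    rw [← Nat.div_add_mod (x.1 i) (D + 1), ← Nat.div_add_mod (y.1 i) (D + 1), h3, h4]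

end Pool.Agent.Lib.MP_16285c_agN
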