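import Pool.Agent.Lib.MP_16285c_agN.Degr.Spec

/-!
# Linear Noether normalisation with degrees (`StmtNN`)
-/

set_option autoImplicit false

namespace Pool.Agent.Lib.MP_16285c_agN

open Pool.Agent.Lib.MP_16285c_ag

namespace DegrNNM

section General

variable {κ : Type} [Field κ]

theorem sum_le_totalDegree {c : ℕ} (p : MvPolynomial (Fin c) κ) (s : Fin c →₀ ℕ)
    (hs : s ∈ p.support) : ∑ i, s i ≤ p.totalDegree := by
  have h := MvPolynomial.le_totalDegree hs
  rwa [Finsupp.sum_fintype _ _ (fun _ => rfl)] at h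

theorem prod_mem {R : Type} [CommRing R] [Algebra κ R] {c : ℕ} (x : Fin c → R)
    (M : ℕ → Submodule κ R) (h1 : (1 : R) ∈ M 0)
    (hmul : ∀ a b g h, g ∈ M a → h ∈ M b → g * h ∈ M (a + b)) (hx : ∀ i, x i ∈ M 1)
    (s : Fin c → ℕ) (T : Finset (Fin c)) : ∏ i ∈ T, x i ^ s i ∈ M (∑ i ∈ T, s i) := by
  classical
  have hpow : ∀ (i : Fin c) (k : ℕ), x i ^ k ∈ M k := by
    intro i k
    induction k with
    | zero => simpa using h1
    | succ k ih => rw [pow_succ]; exact hmul k 1 _ _ ih (hx i)
  induction T using Finset.induction_on with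
  | empty => simpa using h1
  | insert i T hi ih =>
    rw [Finset.prod_insert hi, Finset.sum_insert hi]
    exact hmul _ _ _ _ (hpow i _) ih

theorem aeval_mem {R : Type} [CommRing R] [Algebra κ R] {c : ℕ} (x : Fin c → R)
    (M : ℕ → Submodule κ R) (h1 : (1 : R) ∈ M 0) (hm : ∀ a b, a ≤ b → M a ≤ M b)
    (hmul : ∀ a b g h, g ∈ M a → h ∈ M b → g * h ∈ M (a + b)) (hx : ∀ i, x i ∈ M 1)
    (p : MvPolynomial (Fin c) κ) (a : ℕ) (hp : p.totalDegree ≤ a) :
    MvPolynomial.aeval x p ∈ M a := by
  rw [MvPolynomial.aeval_def, MvPolynomial.eval₂_eq']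
  refine Submodule.sum_mem _ fun s hs => ?_
  rw [← Algebra.smul_def]
  refine Submodule.smul_mem _ _ ?_
  exact hm _ _ ((sum_le_totalDegree p s hs).trans hp)
    (prod_mem x M h1 hmul hx (fun i => s i) Finset.univ)

variable {F : Type} [Field F] [Algebra κ F]

theorem mem_Vd {c : ℕ} (x : Fin c → F) (a : ℕ) (g : F) :
    g ∈ Vd κ x a ↔ ∃ p : MvPolynomial (Fin c) κ, p.totalDegree ≤ a ∧
      MvPolynomial.aeval x p = g := by
  unfold Vd
  rw [Submodule.mem_map]
  constructor
  · rintro ⟨p, hp, rfl⟩
    exact ⟨p, (MvPolynomial.mem_restrictTotalDegree _ _ _).mp hp, rfl⟩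
  · rintro ⟨p, hp, rfl⟩
    exact ⟨p, (MvPolynomial.mem_restrictTotalDegree _ _ _).mpr hp, rfl⟩

theorem Vd_one {c : ℕ} (x : Fin c → F) (a : ℕ) : (1 : F) ∈ Vd κ x a := by
  rw [mem_Vd]
  exact ⟨1, by rw [MvPolynomial.totalDegree_one]; exact Nat.zero_le _, map_one _⟩

theorem Vd_mono {c : ℕ} (x : Fin c → F) (a b : ℕ) (h : a ≤ b) : Vd κ x a ≤ Vd κ x b := by
  intro g hg
  rw [mem_Vd] at hg ⊢
  obtain ⟨p, hp, e⟩ := hg
  exact ⟨p, hp.trans h, e⟩

theorem Vd_mul {c : ℕ} (x : Fin c → F) (a b : ℕ) (g h : F) (hg : g ∈ Vd κ x a)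
    (hh : h ∈ Vd κ x b) : g * h ∈ Vd κ x (a + b) := by
  rw [mem_Vd] at hg hh ⊢
  obtain ⟨p, hp, e⟩ := hg
  obtain ⟨q, hq, e'⟩ := hh
  exact ⟨p * q, (MvPolynomial.totalDegree_mul _ _).trans (add_le_add hp hq),
    by rw [map_mul, e, e']⟩

theorem Vd_gen {c : ℕ} (x : Fin c → F) (i : Fin c) : x i ∈ Vd κ x 1 := by
  rw [mem_Vd]
  exact ⟨MvPolynomial.X i, le_of_eq (MvPolynomial.totalDegree_X i), MvPolynomial.aeval_X _ _⟩

theorem Vd_prod {c : ℕ} (x : Fin c → F) (s : Fin c → ℕ) :
    ∏ i, x i ^ s i ∈ Vd κ x (∑ i, s i) :=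
  prod_mem x (fun a => Vd κ x a) (Vd_one x 0) (Vd_mul x) (Vd_gen x) s Finset.univ

/-- Multiplying an element of `W * Vd a` by an element of `Vd b`. -/
theorem mul_mem {c : ℕ} (x : Fin c → F) (W : Submodule κ F) (a b k : ℕ) (hk : a + b ≤ k)
    (g h : F) (hg : g ∈ W * Vd κ x a) (hh : h ∈ Vd κ x b) : g * h ∈ W * Vd κ x k := by
  have h1 : g * h ∈ W * Vd κ x a * Vd κ x b := Submodule.mul_mem_mul hg hh
  rw [mul_assoc] at h1
  have h2 : Vd κ x a * Vd κ x b ≤ Vd κ x k := by
    rw [Submodule.mul_le]
    intro m hm n hn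
    exact Vd_mono x _ _ hk (Vd_mul x a b m n hm hn)
  exact (mul_le_mul' le_rfl h2) h1

/-- The powers of `y`. -/
theorem pow_mem {c : ℕ} (z : Fin (c + 1) → F) (i0 : Fin (c + 1))
    (p : MvPolynomial (Fin (c + 1)) κ) (d : ℕ) (hd : p.totalDegree ≤ d)
    (hc : p.coeff (Finsupp.single i0 d) ≠ 0) (h0 : MvPolynomial.aeval z p = 0) (k : ℕ) :
    z i0 ^ k ∈ Submodule.span κ (Set.range fun i : Fin d => z i0 ^ (i : ℕ)) *
      Vd κ (fun j => z (i0.succAbove j)) k := by
  classical
  induction k using Nat.strong_induction_on with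
  | _ k ih =>
    rcases lt_or_ge k d with hkd | hkd
    · have h1 : z i0 ^ k ∈ Submodule.span κ (Set.range fun i : Fin d => z i0 ^ (i : ℕ)) :=
        Submodule.subset_span ⟨⟨k, hkd⟩, rfl⟩
      have h2 := Submodule.mul_mem_mul h1 (Vd_one (κ := κ) (fun j => z (i0.succAbove j)) k)
      rwa [mul_one] at h2
    · have hs0 : Finsupp.single i0 d ∈ p.support := MvPolynomial.mem_support_iff.mpr hc
      have hsum : ∑ s ∈ p.support, p.coeff s • (z i0 ^ (k - d) * ∏ i, z i ^ s i) = 0 := by
        have h1 := h0
        rw [MvPolynomial.aeval_def, MvPolynomial.eval₂_eq'] at h1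
        have h2 : z i0 ^ (k - d) *
            (∑ s ∈ p.support, algebraMap κ F (p.coeff s) * ∏ i, z i ^ s i) = 0 := by
          rw [h1, mul_zero]
        rw [Finset.mul_sum] at h2
        rw [← h2]
        refine Finset.sum_congr rfl fun s _ => ?_
        rw [Algebra.smul_def]
        ring
      rw [← Finset.add_sum_erase _ _ hs0] at hsum
      have htop : z i0 ^ (k - d) * ∏ i, z i ^ (Finsupp.single i0 d) i = z i0 ^ k := by
        have h1 : ∏ i, z i ^ (Finsupp.single i0 d) i = z i0 ^ d := by
          rw [Finset.prod_eq_single i0]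
          · rw [Finsupp.single_eq_same]
          · intro i _ hi
            rw [Finsupp.single_eq_of_ne hi, pow_zero]
          · intro hi
            exact absurd (Finset.mem_univ _) hi
        rw [h1, ← pow_add, Nat.sub_add_cancel hkd]
      rw [htop] at hsum
      have hrest : ∑ s ∈ p.support.erase (Finsupp.single i0 d),
          p.coeff s • (z i0 ^ (k - d) * ∏ i, z i ^ s i) ∈
          Submodule.span κ (Set.range fun i : Fin d => z i0 ^ (i : ℕ)) *
            Vd κ (fun j => z (i0.succAbove j)) k := by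
        refine Submodule.sum_mem _ fun s hs => Submodule.smul_mem _ _ ?_
        have hs1 : s ∈ p.support := Finset.mem_of_mem_erase hs
        have hs2 : s ≠ Finsupp.single i0 d := Finset.ne_of_mem_erase hs
        have hle := (sum_le_totalDegree p s hs1).trans hd
        rw [Fin.sum_univ_succAbove _ i0] at hle
        have hlt : s i0 < d := by
          rcases lt_or_ge (s i0) d with h | h
          · exact h
          · exfalso
            apply hs2
            have hz : ∑ j : Fin c, s (i0.succAbove j) = 0 := by omega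
            have hz' : ∀ j : Fin c, s (i0.succAbove j) = 0 := by
              intro j
              have := (Finset.sum_eq_zero_iff.mp hz) j (Finset.mem_univ j)
              exact this
            ext i
            rcases eq_or_ne i i0 with h' | h'
            · subst h'
              rw [Finsupp.single_eq_same]
              omega
            · obtain ⟨j, rfl⟩ := Fin.exists_succAbove_eq h'
              rw [hz' j, Finsupp.single_eq_of_ne h']
        rw [Fin.prod_univ_succAbove _ i0, ← mul_assoc, ← pow_add]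
        have h3 := ih (k - d + s i0) (by omega)
        exact mul_mem (fun j => z (i0.succAbove j)) _ (k - d + s i0)
          (∑ j : Fin c, s (i0.succAbove j)) k (by omega) _ _ h3
          (Vd_prod (fun j => z (i0.succAbove j)) fun j => s (i0.succAbove j))
      have h5 : z i0 ^ k = (p.coeff (Finsupp.single i0 d))⁻¹ •
          -(∑ s ∈ p.support.erase (Finsupp.single i0 d),
            p.coeff s • (z i0 ^ (k - d) * ∏ i, z i ^ s i)) := by
        rw [← eq_neg_of_add_eq_zero_left hsum, smul_smul, inv_mul_cancel₀ hc, one_smul]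
      rw [h5]
      exact Submodule.smul_mem _ _ (Submodule.neg_mem _ hrest)

theorem Vd_le {c : ℕ} (z : Fin (c + 1) → F) (i0 : Fin (c + 1)) (W : Submodule κ F)
    (hk : ∀ k, z i0 ^ k ∈ W * Vd κ (fun j => z (i0.succAbove j)) k) (a : ℕ) :
    Vd κ z a ≤ W * Vd κ (fun j => z (i0.succAbove j)) a := by
  intro g hg
  rw [mem_Vd] at hg
  obtain ⟨p, hp, rfl⟩ := hg
  rw [MvPolynomial.aeval_def, MvPolynomial.eval₂_eq']
  refine Submodule.sum_mem _ fun s hs => ?_
  rw [← Algebra.smul_def]
  refine Submodule.smul_mem _ _ ?_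
  have hle := (sum_le_totalDegree p s hs).trans hp
  rw [Fin.sum_univ_succAbove _ i0] at hle
  rw [Fin.prod_univ_succAbove _ i0]
  exact mul_mem (fun j => z (i0.succAbove j)) _ (s i0)
    (∑ j : Fin c, s (i0.succAbove j)) a hle _ _ (hk _)
    (Vd_prod (fun j => z (i0.succAbove j)) fun j => s (i0.succAbove j))

theorem Vd_le_of_gen {c c' : ℕ} (x : Fin c → F) (z : Fin c' → F) (h : ∀ i, x i ∈ Vd κ z 1)
    (a : ℕ) : Vd κ x a ≤ Vd κ z a := by
  intro g hg
  rw [mem_Vd] at hg
  obtain ⟨p, hp, rfl⟩ := hg
  exact aeval_mem x (fun a => Vd κ z a) (Vd_one z 0) (Vd_mono z) (Vd_mul z) h p a hp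

/-! ### The top coefficient -/

theorem coeff_line {c : ℕ} (i0 : Fin c) (d : ℕ) (q : MvPolynomial (Fin c) κ) :
    (MvPolynomial.aeval (fun i => if i = i0 then (Polynomial.X : Polynomial κ) else 0) q).coeff d =
      q.coeff (Finsupp.single i0 d) := by
  classical
  induction q using MvPolynomial.induction_on' with
  | monomial m a =>
    rw [MvPolynomial.aeval_monomial, Finsupp.prod_fintype _ _ (fun i => pow_zero _),
      MvPolynomial.coeff_monomial]
    change (Polynomial.C a * _).coeff d = _
    rw [Polynomial.coeff_C_mul]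
    by_cases h : ∀ i, i ≠ i0 → m i = 0
    · have h1 : ∏ i, (if i = i0 then (Polynomial.X : Polynomial κ) else 0) ^ m i =
          Polynomial.X ^ m i0 := by
        rw [Finset.prod_eq_single i0]
        · rw [if_pos rfl]
        · intro i _ hi
          rw [h i hi, pow_zero]
        · intro hi
          exact absurd (Finset.mem_univ _) hi
      rw [h1, Polynomial.coeff_X_pow]
      have h2 : m = Finsupp.single i0 (m i0) := by
        ext i
        rcases eq_or_ne i i0 with h' | h'
        · subst h'
          rw [Finsupp.single_eq_same]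
        · rw [h i h', Finsupp.single_eq_of_ne h']
      by_cases h3 : d = m i0
      · rw [if_pos h3, if_pos (by rw [h3]; exact h2), mul_one]
      · rw [if_neg h3, if_neg, mul_zero]
        intro h4
        apply h3
        rw [h4, Finsupp.single_eq_same]
    · push Not at h
      obtain ⟨i1, hi1, hm⟩ := h
      have h1 : ∏ i, (if i = i0 then (Polynomial.X : Polynomial κ) else 0) ^ m i = 0 := by
        apply Finset.prod_eq_zero (Finset.mem_univ i1)
        rw [if_neg hi1, zero_pow hm]
      rw [h1, Polynomial.coeff_zero, mul_zero, if_neg]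
      intro h4
      apply hm
      rw [h4, Finsupp.single_eq_of_ne hi1]
  | add p q hp hq =>
    rw [map_add, Polynomial.coeff_add, hp, hq, MvPolynomial.coeff_add]

theorem coeff_dir {c : ℕ} (v : Fin c → κ) (d : ℕ) (q : MvPolynomial (Fin c) κ) :
    (MvPolynomial.aeval (fun i => Polynomial.C (v i) * (Polynomial.X : Polynomial κ)) q).coeff d =
      MvPolynomial.eval v (MvPolynomial.homogeneousComponent d q) := by
  classical
  rw [MvPolynomial.aeval_def, MvPolynomial.eval₂_eq', MvPolynomial.homogeneousComponent_apply,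
    map_sum, Polynomial.finsetSum_coeff, Finset.sum_filter]
  refine Finset.sum_congr rfl fun s _ => ?_
  change (Polynomial.C _ * _).coeff d = _
  have h1 : ∏ i, (Polynomial.C (v i) * (Polynomial.X : Polynomial κ)) ^ s i =
      Polynomial.C (∏ i, v i ^ s i) * Polynomial.X ^ (∑ i, s i) := by
    simp_rw [mul_pow]
    rw [Finset.prod_mul_distrib, Finset.prod_pow_eq_pow_sum, map_prod]
    simp_rw [map_pow]
  rw [h1, Polynomial.coeff_C_mul, Polynomial.coeff_C_mul, Polynomial.coeff_X_pow,
    Finsupp.degree_eq_sum]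
  by_cases h : d = ∑ i, s i
  · rw [if_pos h, if_pos h.symm, MvPolynomial.eval_monomial,
      Finsupp.prod_fintype _ _ (fun i => pow_zero _), mul_one]
  · rw [if_neg h, if_neg (fun h' => h h'.symm), mul_zero, mul_zero]

/-- The homogeneous component of top degree is not zero. -/
theorem top_ne {c : ℕ} (P : MvPolynomial (Fin c) κ) (hP : P ≠ 0) :
    MvPolynomial.homogeneousComponent P.totalDegree P ≠ 0 := by
  intro h
  have hne : P.support.Nonempty := by
    rw [Finset.nonempty_iff_ne_empty]
    intro h'
    exact hP (MvPolynomial.support_eq_empty.mp h')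
  obtain ⟨s, hs, he⟩ := Finset.exists_mem_eq_sup P.support hne (fun s => s.sum fun _ e => e)
  have h1 : MvPolynomial.coeff s (MvPolynomial.homogeneousComponent P.totalDegree P) =
      MvPolynomial.coeff s P := by
    rw [MvPolynomial.coeff_homogeneousComponent, if_pos]
    rw [Finsupp.degree_eq_sum]
    have h2 : P.totalDegree = s.sum fun _ e => e := he
    rw [h2, Finsupp.sum_fintype _ _ (fun _ => rfl)]
  rw [h, MvPolynomial.coeff_zero] at h1
  exact MvPolynomial.mem_support_iff.mp hs h1.symm

end General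

section Step

variable {K κ F : Type} [Field K] [Field κ] [Field F] [Algebra K κ] [Algebra κ F]
  [Algebra K F] [IsScalarTower K κ F]

/-- A direction with coordinates in `K`. -/
theorem exists_dir [Infinite K] {c : ℕ} (Q : MvPolynomial (Fin c) κ) (hQ : Q ≠ 0) :
    ∃ w : Fin c → K, MvPolynomial.eval (fun i => algebraMap K κ (w i)) Q ≠ 0 := by
  by_contra h
  push Not at h
  apply hQ
  refine MvPolynomial.funext_set (fun _ => Set.range (algebraMap K κ))
    (fun _ => Set.infinite_range_of_injective (algebraMap K κ).injective) ?_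
  intro x hx
  rw [map_zero]
  have hx' : ∀ i, ∃ a : K, algebraMap K κ a = x i := fun i => hx i (Set.mem_univ i)
  choose w hw using hx'
  have h1 := h w
  have h2 : (fun i => algebraMap K κ (w i)) = x := funext hw
  rwa [h2] at h1

theorem step [Infinite K] {c : ℕ} (x : Fin (c + 1) → F) (hx : ¬ AlgebraicIndependent κ x) :
    ∃ B : Fin c → Fin (c + 1) → K, ∃ W : Submodule κ F, W.FG ∧
      ∀ a, Vd κ x a ≤ W * Vd κ (fun j => ∑ k, algebraMap K F (B j k) * x k) a := by
  classical
  rw [algebraicIndependent_iff] at hx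
  push Not at hx
  obtain ⟨P, hP0, hP⟩ := hx
  have hd0 : P.totalDegree ≠ 0 := by
    intro h
    rw [MvPolynomial.totalDegree_eq_zero_iff_eq_C] at h
    rw [h, MvPolynomial.aeval_C] at hP0
    have h1 : P.coeff 0 = 0 := by
      apply (algebraMap κ F).injective
      rw [hP0, map_zero]
    rw [h1, map_zero] at h
    exact hP h
  obtain ⟨w, hw⟩ := exists_dir (K := K) _ (top_ne P hP)
  have hi0 : ∃ i0, w i0 ≠ 0 := by
    by_contra h
    push Not at h
    apply hw
    have h1 : (fun i => algebraMap K κ (w i)) = fun _ => (0 : κ) := by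
      funext i
      rw [h i, map_zero]
    rw [h1, MvPolynomial.eval_zero', MvPolynomial.constantCoeff_eq,
      MvPolynomial.coeff_homogeneousComponent, if_neg]
    rw [map_zero]
    exact fun h' => hd0 h'.symm
  obtain ⟨i0, hi0⟩ := hi0
  have hF0 : algebraMap K F (w i0) ≠ 0 := by
    rwa [Ne, map_eq_zero]
  have htow : ∀ a : K, algebraMap κ F (algebraMap K κ a) = algebraMap K F a := fun a =>
    (IsScalarTower.algebraMap_apply K κ F a).symm
  -- the new generators
  let z : Fin (c + 1) → F := fun i =>
    if i = i0 then x i0 * (algebraMap K F (w i0))⁻¹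
    else x i - algebraMap K F (w i) * (x i0 * (algebraMap K F (w i0))⁻¹)
  let u : Fin (c + 1) → MvPolynomial (Fin (c + 1)) κ := fun i =>
    (if i = i0 then 0 else MvPolynomial.X i) +
      MvPolynomial.C (algebraMap K κ (w i)) * MvPolynomial.X i0
  have hz0 : z i0 = x i0 * (algebraMap K F (w i0))⁻¹ := if_pos rfl
  have hz1 : ∀ i, i ≠ i0 → z i = x i - algebraMap K F (w i) * z i0 := by
    intro i hi
    rw [hz0]
    exact if_neg hi
  have hzu : ∀ i, MvPolynomial.aeval z (u i) = x i := by
    intro i
    change MvPolynomial.aeval z ((if i = i0 then 0 else MvPolynomial.X i) +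
      MvPolynomial.C (algebraMap K κ (w i)) * MvPolynomial.X i0) = x i
    rw [map_add, map_mul, MvPolynomial.aeval_C, MvPolynomial.aeval_X, htow]
    by_cases hi : i = i0
    · rw [if_pos hi, map_zero, zero_add, hi, hz0]
      field_simp
    · rw [if_neg hi, MvPolynomial.aeval_X, hz1 i hi]
      ring
  have hudeg : ∀ i, (u i).totalDegree ≤ 1 := by
    intro i
    change ((if i = i0 then 0 else MvPolynomial.X i) +
      MvPolynomial.C (algebraMap K κ (w i)) * MvPolynomial.X i0).totalDegree ≤ 1
    refine (MvPolynomial.totalDegree_add _ _).trans (max_le ?_ ?_)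
    · split_ifs
      · rw [MvPolynomial.totalDegree_zero]
        exact Nat.zero_le _
      · rw [MvPolynomial.totalDegree_X]
    · refine (MvPolynomial.totalDegree_mul _ _).trans ?_
      rw [MvPolynomial.totalDegree_C, MvPolynomial.totalDegree_X]
  have hxz : ∀ i, x i ∈ Vd κ z 1 := by
    intro i
    rw [mem_Vd]
    exact ⟨u i, hudeg i, hzu i⟩
  -- the new polynomial
  have hp1 : (MvPolynomial.aeval u P).totalDegree ≤ P.totalDegree := by
    have h1 := aeval_mem u (fun a => MvPolynomial.restrictTotalDegree (Fin (c + 1)) κ a)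
      (by
        rw [MvPolynomial.mem_restrictTotalDegree, MvPolynomial.totalDegree_one])
      (by
        intro a b hab g hg
        rw [MvPolynomial.mem_restrictTotalDegree] at hg ⊢
        exact hg.trans hab)
      (by
        intro a b g h hg hh
        rw [MvPolynomial.mem_restrictTotalDegree] at hg hh ⊢
        exact (MvPolynomial.totalDegree_mul _ _).trans (add_le_add hg hh))
      (by
        intro i
        rw [MvPolynomial.mem_restrictTotalDegree]
        exact hudeg i)
      P P.totalDegree le_rfl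
    rwa [MvPolynomial.mem_restrictTotalDegree] at h1
  have hp2 : MvPolynomial.aeval z (MvPolynomial.aeval u P) = 0 := by
    rw [MvPolynomial.comp_aeval_apply]
    simp_rw [hzu]
    exact hP0
  have hp3 : (MvPolynomial.aeval u P).coeff (Finsupp.single i0 P.totalDegree) ≠ 0 := by
    rw [← coeff_line, MvPolynomial.comp_aeval_apply]
    have h1 : (fun i => MvPolynomial.aeval
        (fun i => if i = i0 then (Polynomial.X : Polynomial κ) else 0) (u i)) =
        fun i => Polynomial.C (algebraMap K κ (w i)) * (Polynomial.X : Polynomial κ) := by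
      funext i
      change MvPolynomial.aeval _ ((if i = i0 then 0 else MvPolynomial.X i) +
        MvPolynomial.C (algebraMap K κ (w i)) * MvPolynomial.X i0) = _
      rw [map_add, map_mul, MvPolynomial.aeval_C, MvPolynomial.aeval_X, if_pos rfl]
      by_cases hi : i = i0
      · rw [if_pos hi, map_zero, zero_add]
        rfl
      · rw [if_neg hi, MvPolynomial.aeval_X, if_neg hi, zero_add]
        rfl
    rw [h1, coeff_dir]
    exact hw
  -- the linear forms
  refine ⟨fun j k => (if k = i0.succAbove j then 1 else 0) -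
    (if k = i0 then w (i0.succAbove j) * (w i0)⁻¹ else 0),
    Submodule.span κ (Set.range fun i : Fin P.totalDegree => z i0 ^ (i : ℕ)),
    Submodule.fg_span (Set.finite_range _), fun a => ?_⟩
  have hlin : (fun j => ∑ k, algebraMap K F ((if k = i0.succAbove j then 1 else 0) -
      (if k = i0 then w (i0.succAbove j) * (w i0)⁻¹ else 0)) * x k) =
      fun j => z (i0.succAbove j) := by
    funext j
    rw [hz1 _ (Fin.succAbove_ne i0 j), hz0]
    simp_rw [map_sub, sub_mul]
    rw [Finset.sum_sub_distrib, Finset.sum_eq_single (i0.succAbove j),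
      Finset.sum_eq_single i0]
    · rw [if_pos rfl, if_pos rfl, map_one, one_mul, map_mul, map_inv₀]
      ring
    · intro k _ hk
      rw [if_neg hk, map_zero, zero_mul]
    · intro h
      exact absurd (Finset.mem_univ _) h
    · intro k _ hk
      rw [if_neg hk, map_zero, zero_mul]
    · intro h
      exact absurd (Finset.mem_univ _) h
  rw [hlin]
  exact (Vd_le_of_gen x z hxz a).trans
    (Vd_le z i0 _ (pow_mem z i0 (MvPolynomial.aeval u P) P.totalDegree hp1 hp3 hp2) a)

omit [Algebra K κ] [IsScalarTower K κ F] in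
theorem indep {c : ℕ} (x : Fin c → F) (hx : AlgebraicIndependent κ x) :
    ∃ (s : ℕ) (A : Fin s → Fin c → K),
      AlgebraicIndependent κ (fun i => ∑ j, algebraMap K F (A i j) * x j) ∧
      ∃ W : Submodule κ F, W.FG ∧
        ∀ a : ℕ, Vd κ x a ≤ W * Vd κ (fun i => ∑ j, algebraMap K F (A i j) * x j) a := by
  classical
  have h1 : (fun i : Fin c => ∑ j, algebraMap K F (if j = i then (1 : K) else 0) * x j) = x := by
    funext i
    rw [Finset.sum_eq_single i]
    · rw [if_pos rfl, map_one, one_mul]
    · intro k _ hk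
      rw [if_neg hk, map_zero, zero_mul]
    · intro h
      exact absurd (Finset.mem_univ _) h
  refine ⟨c, fun i j => if j = i then 1 else 0, ?_, ?_⟩
  · rw [h1]
    exact hx
  · refine ⟨1, ?_, fun a => ?_⟩
    · rw [Submodule.one_eq_span]
      exact Submodule.fg_span (Set.finite_singleton _)
    · rw [h1, Submodule.one_mul]

end Step

end DegrNNM

open DegrNNM in
/-- (NN) Linear Noether normalisation with degrees. -/
theorem tNN : StmtNN := by
  intro K κ F _ _ _ _ _ _ _ _ c
  induction c with
  | zero =>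
    intro x
    exact indep x algebraicIndependent_empty_type
  | succ c ih =>
    intro x
    by_cases h : AlgebraicIndependent κ x
    · exact indep x h
    · obtain ⟨B, W₁, hW₁, h1⟩ := step (K := K) x h
      obtain ⟨s, A, hA, W, hW, h2⟩ := ih (fun j => ∑ k, algebraMap K F (B j k) * x k)
      have e : (fun i : Fin s => ∑ k, algebraMap K F (∑ j, A i j * B j k) * x k) =
          fun i => ∑ j, algebraMap K F (A i j) * ∑ k, algebraMap K F (B j k) * x k := by
        funext i
        simp_rw [map_sum, map_mul, Finset.sum_mul, Finset.mul_sum]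
        rw [Finset.sum_comm]
        refine Finset.sum_congr rfl fun j _ => Finset.sum_congr rfl fun k _ => ?_
        ring
      refine ⟨s, fun i k => ∑ j, A i j * B j k, ?_, W₁ * W, hW₁.mul hW, fun a => ?_⟩
      · rw [e]
        exact hA
      · rw [e, mul_assoc]
        exact (h1 a).trans (mul_le_mul' le_rfl (h2 a))

end Pool.Agent.Lib.MP_16285c_agN
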