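import Pool.Agent.Lib.MP_16285c_agN.Degr.Spec

/-!
# Bases of polynomial functions

The images of the polynomials span the field of fractions of the coordinate ring of a subvariety over a subfield of finite index.
-/

set_option autoImplicit false

namespace Pool.Agent.Lib.MP_16285c_agN.DegrThetaM

/-- Over a field `F` with `L / F` algebraic, a subring of `L` given as the range of a ring homomorphism such that all elements of
`L` are quotients of elements of it spans `L` over `F`. -/
theorem span_range {P F L : Type} [CommRing P] [Field F] [Field L] [Algebra F L] (f : P →+* L)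
    [Algebra.IsAlgebraic F L] (h : ∀ x : L, ∃ a b : P, x = f a / f b) :
    Submodule.span F (Set.range f) = ⊤ := by
  have h1 : (Algebra.adjoin F (Set.range f)) = ⊤ := by
    rw [eq_top_iff]
    rintro x -
    obtain ⟨a, b, rfl⟩ := h x
    have ha : f a ∈ Algebra.adjoin F (Set.range f) := Algebra.subset_adjoin ⟨a, rfl⟩
    have hb : f b ∈ Algebra.adjoin F (Set.range f) := Algebra.subset_adjoin ⟨b, rfl⟩
    have hb' : (f b)⁻¹ ∈ Algebra.adjoin F (Set.range f) :=
      Subalgebra.inv_mem_of_algebraic (Algebra.adjoin F (Set.range f)) (x := ⟨f b, hb⟩)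
        (Algebra.IsAlgebraic.isAlgebraic _)
    rw [div_eq_mul_inv]
    exact mul_mem ha hb'
  have h2 : (Set.range f) = (MonoidHom.mrange (f : P →* L) : Set L) := by
    ext x
    simp
  have h3 := Algebra.adjoin_eq_span (R := F) (s := Set.range f)
  rw [h1, h2, Submonoid.closure_eq] at h3
  rw [h2, ← h3]
  rfl

theorem exists_fam {P F L : Type} [Field F] [Field L] [Algebra F L] (f : P → L)
    (h : Submodule.span F (Set.range f) = ⊤) (hf : Module.Finite F L) (d : ℕ)
    (hd : d = Module.finrank F L) :
    ∃ θ : Fin d → P, LinearIndependent F (fun i => f (θ i)) := by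
  have h1 : d = Module.finrank F (Submodule.span F (Set.range f)) := by
    rw [h, finrank_top, hd]
  subst h1
  obtain ⟨g, hg, -, hgi⟩ := Submodule.exists_fun_fin_finrank_span_eq F (Set.range f)
  choose θ hθ using hg
  refine ⟨θ, ?_⟩
  have : (fun i => f (θ i)) = g := funext hθ
  rw [this]
  exact hgi

end Pool.Agent.Lib.MP_16285c_agN.DegrThetaM

namespace Pool.Agent.Lib.MP_16285c_agN

open DegrThetaM

/-- The images of suitable polynomials are linearly independent over a subfield of finite index. -/
theorem tTheta : StmtTheta := by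
  intro K _ n 𝔭 _ L _ _ _ _ _ κb hfin
  have : Module.Finite κb L := hfin
  have halg : Algebra.IsAlgebraic κb L := inferInstance
  refine exists_fam (P := MvPolynomial (Fin n) K) (fun G => algebraMap (CR 𝔭) L (cl 𝔭 G)) ?_ hfin _ rfl
  refine span_range ((algebraMap (CR 𝔭) L).comp (Ideal.Quotient.mk 𝔭)) ?_
  intro x
  obtain ⟨a, b, -, hab⟩ := IsFractionRing.div_surjective (A := CR 𝔭) x
  obtain ⟨a', rfl⟩ := Ideal.Quotient.mk_surjective a
  obtain ⟨b', rfl⟩ := Ideal.Quotient.mk_surjective b
  exact ⟨a', b', hab.symm⟩

end Pool.Agent.Lib.MP_16285c_agN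

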