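import Pool.Agent.Lib.MP_16285c_agN.SpecN

/-!
# Growth on subvarieties by dynamical degrees: statements

Notation: see `Defs.lean`. `degr r g` is the `r`-th degree of the rational map `g`: the intersection number of `r` general members of the
linear system of `g` with `n - r` general hyperplanes, defined as the largest degree of `K(x)` over a field
`K(l_1(x), …, l_(n-r)(x), m_1(g), …, m_r(g))` with linear forms `l_i`, `m_i`. `lam r σ` is the `r`-th dynamical degree. The aim is
`StmtDegrG`: a subvariety of dimension `r` on which the iterates of `ρ` have degree `δ ^ m` satisfies `δ ^ m ≤ C * degr r (ρ ^ m)`.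
Every lemma is a `Prop` with its complete proof in the docstring; the files proving them are independent: used statements are hypotheses
(file `Degr/X.lean`, theorem `stmtX : StmtX`, or `StmtY → StmtX`).
-/

set_option autoImplicit false

namespace Pool.Agent.Lib.MP_16285c_agN

open Pool.Agent.Lib.MP_16285c_ag

/-! ## Definitions -/

section

variable {n : ℕ} {K : Type} [Field K]

/-- The linear combinations of `g_0, …, g_{n-1}` with coefficients `A`. -/
noncomputable def lf {c : ℕ} (A : Fin c → Fin n → K) (g : Fin n → RF n K) (i : Fin c) : RF n K :=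
  ∑ j, algebraMap K (RF n K) (A i j) * g j

/-- The field generated by linear forms in the coordinates and linear forms in the components of `g`. -/
noncomputable def fld {s r : ℕ} (A : Fin s → Fin n → K) (B : Fin r → Fin n → K)
    (g : Fin n → RF n K) : IntermediateField K (RF n K) :=
  IntermediateField.adjoin K (Set.range (lf A (gen n K)) ∪ Set.range (lf B g))

/-- The `r`-th degree of a rational map. -/
noncomputable def degr (r : ℕ) (g : Fin n → RF n K) : ENNReal :=
  ⨆ (A : Fin (n - r) → Fin n → K) (B : Fin r → Fin n → K),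
    (Module.finrank (fld A B g) (RF n K) : ENNReal)

/-- The `r`-th dynamical degree. -/
noncomputable def lam (r : ℕ) (σ : RF n K →ₐ[K] RF n K) : ENNReal :=
  Filter.limsup (fun m : ℕ => degr r (it σ m) ^ ((m : ℝ)⁻¹)) Filter.atTop

end

/-- The `κ`-space of the polynomials of degree `≤ a` in the elements `x_1, …, x_c` of `F`. -/
noncomputable def Vd (κ : Type) {F : Type} [Field κ] [Field F] [Algebra κ F] {c : ℕ}
    (x : Fin c → F) (a : ℕ) : Submodule κ F :=
  (MvPolynomial.restrictTotalDegree (Fin c) κ a).map (MvPolynomial.aeval x).toLinearMap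

/-- The number of monomials of degree `≤ a` in `s` variables. -/
noncomputable def cnt (s a : ℕ) : ℕ := Nat.card {b : Fin s → ℕ // ∑ i, b i ≤ a}

/-! ## Counting monomials -/

/-- (Cnt) PROOF. The set `S s a = {b | ∑ b i ≤ a}` is finite (contained in the functions `Fin s → {0, …, a}`). (1) `0 ∈ S`. (2) inclusion. (3) `b ↦ ((b i / (D+1))_i, (b i % (D+1))_i)` is an injection from `S s ((D+1) N)` into `S s N × (Fin s → Fin (D+1))`: `(D+1) * ∑ (b i / (D+1)) ≤ ∑ b i ≤ (D+1) N`. -/
def StmtCnt : Prop :=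
  (∀ s a : ℕ, 1 ≤ cnt s a) ∧ (∀ s a b : ℕ, a ≤ b → cnt s a ≤ cnt s b) ∧
  ∀ s D N : ℕ, cnt s ((D + 1) * N) ≤ (D + 1) ^ s * cnt s N

/-- (Num) PROOF (uses `StmtCnt`). Take `N = E`: `δ * cnt s E ≤ e * cnt s (D E + E) ≤ e * (D+1) ^ s * cnt s E` and `cnt s E ≥ 1`. -/
def StmtNum : Prop :=
  ∀ δ e D E s : ℕ, (∀ N : ℕ, δ * cnt s N ≤ e * cnt s (D * N + E)) → δ ≤ e * (D + 1) ^ s

/-- (Vd) PROOF. `restrictTotalDegree (Fin c) κ a` is spanned by the finitely many monomials of degree `≤ a` (`MvPolynomial.restrictTotalDegree`, `restrictSupport`; `basisRestrictSupport` gives a basis indexed by the exponents `u : Fin c →₀ ℕ` with `∑ u i ≤ a`; `Finsupp.equivFunOnFinite`), so it is finite dimensional of dimension `cnt c a`.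
If `x` is algebraically independent then `aeval x` is injective and `finrank` is preserved (`LinearMap.finrank_range_of_inj`, `LinearEquiv.finrank_eq`, `Submodule.equivMapOfInjective`). -/
def StmtVd : Prop :=
  (∀ (κ F : Type) [Field κ] [Field F] [Algebra κ F] (c : ℕ) (x : Fin c → F) (a : ℕ),
    Module.Finite κ (Vd κ x a)) ∧
  ∀ (κ F : Type) [Field κ] [Field F] [Algebra κ F] (c : ℕ) (x : Fin c → F) (a : ℕ),
    AlgebraicIndependent κ x → Module.finrank κ (Vd κ x a) = cnt c a

/-! ## Upper bound -/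

/-- (NN) Linear Noether normalisation with degrees. PROOF. Induction on `c`. If `x` is algebraically independent over `κ` (in particular if `c = 0`) take `s = c`, `A` the identity matrix, `W = span {1}` (`1 : Submodule`). Otherwise let `P : MvPolynomial (Fin c) κ`, `P ≠ 0`, `P(x) = 0`, `d = totalDegree P ≥ 1` (a nonzero constant does not vanish), `P_d` its
homogeneous component of degree `d`, not zero. There is `v : Fin c → K` with `P_d(v) ≠ 0` (`K` is infinite and embeds in `κ`: a nonzero polynomial over a field does not vanish on all points of an infinite subset: `MvPolynomial.funext_set`, or induction on the number of variables). `v ≠ 0` as `P_d` is homogeneous of degree `d ≥ 1`; let `v i₀ ≠ 0`; dividing by `v i₀` we may assume `v i₀ = 1`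
(`P_d(t v) = t ^ d P_d(v)`). Let `y = x i₀` and `x' i = x i - v i * y` for `i ≠ i₀` (a family indexed by `Fin (c - 1)` through `Fin.succAbove i₀`), so `x i = x' i + v i y` for all `i` with `x' i₀ = 0`. `0 = P(x' + v y)` is a polynomial in `y` whose coefficient of `y ^ d` is `P_d(v)` and whose coefficient of `y ^ (d-j)` is
a polynomial of degree `≤ j` in `x'` (check it for monomials: a monomial of degree `t ≤ d` in the `x' i + v i y` is `∑ over k, (element of Vd x' (t - k)) * y ^ k`). So `y ^ d ∈ ∑ over k < d, y ^ k * Vd κ x' (d - k)`. Hence `y ^ k ∈ ∑ over i < d, y ^ i * Vd κ x' (k - i)` (truncated subtraction only for `i ≤ k`) for all `k` (induction on `k`: multiply by `y` and replace `y ^ d`;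
`Vd x' a * Vd x' b ≤ Vd x' (a + b)`), and so `Vd κ x a ≤ W₁ * Vd κ x' a` with `W₁ = span {y ^ i | i < d}`. Induction hypothesis for `x'`: `Vd κ x' a ≤ W' * Vd κ l a` with linear forms `l` in `x'`, i.e. in `x`. `W = W₁ * W'` (`Submodule.FG.mul`). -/
def StmtNN : Prop :=
  ∀ (K κ F : Type) [Field K] [Infinite K] [Field κ] [Field F] [Algebra K κ] [Algebra κ F] [Algebra K F]
    [IsScalarTower K κ F] (c : ℕ) (x : Fin c → F),
    ∃ (s : ℕ) (A : Fin s → Fin c → K),
      AlgebraicIndependent κ (fun i => ∑ j, algebraMap K F (A i j) * x j) ∧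
      ∃ W : Submodule κ F, W.FG ∧
        ∀ a : ℕ, Vd κ x a ≤ W * Vd κ (fun i => ∑ j, algebraMap K F (A i j) * x j) a

/-- (UpF) PROOF. Let `S = Algebra.adjoin κ (Set.range l)`, a Noetherian ring (finitely generated algebra over a field). `M = W * S` (the `S`-submodule of `F` generated by the finitely many generators of `W`) is a finite `S`-module and contains all powers `(x j) ^ k ∈ Vd κ x k ≤ W * Vd κ l k`. So `S[x j] ⊆ M` is a finite `S`-module (submodule of a finite module over a
Noetherian ring), `x j` is integral over `S` (`isIntegral_of_mem_of_FG` / `IsIntegral.of_mem_of_fg`), so algebraic over `F₀ = IntermediateField.adjoin κ (Set.range l)`. `F` is generated over `κ` as a field by the finitely many `x j`, so `F = F₀(x)` is finite over `F₀` (`IntermediateField.finiteDimensional_adjoin`,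
`IntermediateField.adjoin_adjoin_left` or `adjoin_map`-type lemmas to see that `IntermediateField.adjoin F₀ (Set.range x) = ⊤`). -/
def StmtUpF : Prop :=
  ∀ (κ F : Type) [Field κ] [Field F] [Algebra κ F] (c s : ℕ) (x : Fin c → F) (l : Fin s → F)
    (W : Submodule κ F), IntermediateField.adjoin κ (Set.range x) = ⊤ → W.FG →
    (∀ a : ℕ, Vd κ x a ≤ W * Vd κ l a) →
    Module.Finite (IntermediateField.adjoin κ (Set.range l)) F

/-- (Up) PROOF (uses `StmtVd`). Let `F₀ = IntermediateField.adjoin κ (Set.range l)`, `e = [F : F₀]`, `η` a basis. Every element of `F₀` is `P(l) / Q(l)` with polynomials `P, Q` over `κ`, `Q(l) ≠ 0` (`IntermediateField.mem_adjoin_range_iff` or the like). `W` is spanned by `w_1, …, w_p`; `w_i = ∑ j, t_(i j) η_j`, `t_(i j) ∈ F₀`; let `q = Q(l) ≠ 0` be a common denominator of all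
`t_(i j)`: `q * t_(i j) ∈ Vd κ l C` for a `C` (finitely many polynomials). So `q * (W * Vd κ l a) ≤ ∑ j, (Vd κ l C * Vd κ l a) η_j ≤ ∑ j, (Vd κ l (a + C)) η_j`, and the dimension of the last space is at most `e * cnt s (a + C)` (image of `(Vd κ l (a + C)) ^ e`). Multiplication by `q ≠ 0` is injective. -/
def StmtUp : Prop :=
  ∀ (κ F : Type) [Field κ] [Field F] [Algebra κ F] (c s : ℕ) (x : Fin c → F) (l : Fin s → F)
    (W : Submodule κ F), AlgebraicIndependent κ l → W.FG →
    (∀ a : ℕ, Vd κ x a ≤ W * Vd κ l a) →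
    Module.Finite (IntermediateField.adjoin κ (Set.range l)) F →
    ∃ C : ℕ, ∀ a : ℕ, Module.finrank κ (Vd κ x a) ≤
      Module.finrank (IntermediateField.adjoin κ (Set.range l)) F * cnt s (a + C)

/-! ## Lower bound -/

/-- (Low1) Lowest order terms along a subvariety. PROOF. `R = MvPolynomial (Fin n) L`, `Φ : Pl n K →ₐ[K] R`, `X a ↦ C (φ (X a))` for `a ∈ α` and `X j ↦ C (φ (X j)) + X j` for `j ∉ α`. Then `constantCoeff (Φ G) = φ G` for all `G`. For `j ∉ α` let `f j : Polynomial L` be the image of `F j` under `X a ↦ C (φ (X a))` (`a ≠ j`), `X j ↦ C (φ (X j)) + Polynomial.X`; since `vars (F j) ⊆ insert j α`,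
`Φ (F j) = Polynomial.aeval (X j) (f j)` (`MvPolynomial.eval₂Hom_congr'` / `MvPolynomial.hom_congr_vars`). `f j ≠ 0`: otherwise, substituting `Polynomial.X - C (φ (X j))`, the polynomial `F j (φ (X a), T)` in `T` is zero, so all the coefficients of `F j` with respect to the variable `X j`, which are polynomials in the `X a`, `a ∈ α`, vanish at the algebraically independent elements `φ (X a)`,
and `F j = 0`. `f j` has the constant term `φ (F j) = 0`, so `f j = Polynomial.X ^ e j * h j` with `e j ≥ 1` and `(h j).coeff 0 ≠ 0` (`Polynomial.exists_eq_pow_rootMultiplicity_mul_and_not_dvd` at `0`, or `Polynomial.X_pow_order`/`divX`). So for `b` with `b a = 0` on `α`: `Φ (∏ F j ^ b j) = monomial (e * b) 1 * H b`, `e * b` the exponent `j ↦ e j * b j`,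
`constantCoeff (H b) = ∏ j ∉ α, (h j).coeff 0 ^ b j ≠ 0`. Take the coefficient of the monomial `e * b` (`b` the given minimal element) in `0 = ∑ b' ∈ S, monomial (e * b') 1 * (H b' * Φ (Q b'))` (`MvPolynomial.coeff_monomial_mul'`): the term of `b'` contributes only if `e * b' ≤ e * b`, i.e. `b' ≤ b`, i.e. `b' = b`, and then it contributes
`constantCoeff (H b * Φ (Q b)) = constantCoeff (H b) * φ (Q b)`. So `φ (Q b) = 0`. -/
def StmtLow1 : Prop :=
  ∀ (K : Type) [Field K] (n : ℕ) (L : Type) [Field L] [Algebra K L] (φ : Pl n K →ₐ[K] L)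
    (α : Finset (Fin n)), AlgebraicIndependent K (fun a : α => φ (MvPolynomial.X (a : Fin n))) →
    ∀ F : Fin n → Pl n K, (∀ j, j ∉ α → F j ≠ 0 ∧ φ (F j) = 0 ∧ (F j).vars ⊆ insert j α) →
    ∀ (S : Finset (Fin n → ℕ)) (Q : (Fin n → ℕ) → Pl n K), (∀ b ∈ S, ∀ a ∈ α, b a = 0) →
      (∑ b ∈ S, (∏ j, F j ^ b j) * Q b = 0) →
      ∀ b ∈ S, (∀ b' ∈ S, b' ≤ b → b' = b) → φ (Q b) = 0

/-- (Low2) Independence over `κ`. `κ` is a subfield of `K(x)` which is contained in the local ring of the subvariety (`ker φ`), `ι` is the residue map. PROOF (uses `StmtLow1`). Let `∑ (b, i) ∈ S × univ, c b i * fr (∏ F j ^ b j * θ i) = 0` with `c b i ∈ κ` not all `0` (`S` a finite set of exponents vanishing on `α`;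
to prove: this is impossible). Let `E₀` be the product of denominators `E b i` of the `c b i` as in the hypothesis: `φ E₀ ≠ 0`, `c b i * fr E₀ = fr (P b i)`, `ι (c b i) * φ E₀ = φ (P b i)`. Multiplying by `fr E₀`: `∑ b ∈ S, (∏ F j ^ b j) * (∑ i, P b i * θ i) = 0` (`fr` is injective). Let `S' = {b ∈ S | ∃ i, c b i ≠ 0}` (for `b ∉ S'` all
`P b i = 0`, so the sum may be taken over `S'`), nonempty; let `b` be a minimal element of `S'` (`Finset.exists_minimal`). `StmtLow1`: `0 = φ (∑ i, P b i * θ i) = φ E₀ * ∑ i, ι (c b i) * φ (θ i)`. By the linear independence of the `φ (θ i)` over `ι.fieldRange` all `ι (c b i) = 0`, so `c b i = 0` for all `i`: a contradiction to `b ∈ S'`. -/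
def StmtLow2 : Prop :=
  ∀ (K : Type) [Field K] (n : ℕ) (L : Type) [Field L] [Algebra K L] (φ : Pl n K →ₐ[K] L)
    (α : Finset (Fin n)), AlgebraicIndependent K (fun a : α => φ (MvPolynomial.X (a : Fin n))) →
    ∀ F : Fin n → Pl n K, (∀ j, j ∉ α → F j ≠ 0 ∧ φ (F j) = 0 ∧ (F j).vars ⊆ insert j α) →
    ∀ (κ : IntermediateField K (RF n K)) (ι : κ →ₐ[K] L),
      (∀ c : κ, ∃ N E : Pl n K, φ E ≠ 0 ∧ (c : RF n K) * fr E = fr N ∧ ι c * φ E = φ N) →
    ∀ (δ : ℕ) (θ : Fin δ → Pl n K), LinearIndependent ι.fieldRange (fun i => φ (θ i)) →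
      LinearIndependent κ (fun t : {b : Fin n → ℕ // ∀ a ∈ α, b a = 0} × Fin δ =>
        fr ((∏ j, F j ^ (t.1 : Fin n → ℕ) j) * θ t.2))

/-- (Low3) PROOF (uses `StmtLow2`, `StmtVd` (1)). The elements of `StmtLow2` with `∑ b j ≤ N` are values of polynomials of total degree `≤ D N + E` at `gen n K` (`fr G = aeval (gen n K) G`, `totalDegree` of a product is `≤` the sum; map the coefficients from `K` to `κ`: `fr G = aeval (gen n K) (MvPolynomial.map (algebraMap K κ) G)`), so they lie in `Vd κ (gen n K) (D N + E)`.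
The number of `b : Fin n → ℕ` with `b = 0` on `α` and `∑ b j ≤ N` is `cnt (n - α.card) N` (bijection with the functions on the complement of `α`, which has `n - α.card` elements). `LinearIndependent.fintype_card_le_finrank` in the finite dimensional space `Vd κ …`. -/
def StmtLow3 : Prop :=
  ∀ (K : Type) [Field K] (n : ℕ) (L : Type) [Field L] [Algebra K L] (φ : Pl n K →ₐ[K] L)
    (α : Finset (Fin n)), AlgebraicIndependent K (fun a : α => φ (MvPolynomial.X (a : Fin n))) →
    ∀ F : Fin n → Pl n K, (∀ j, j ∉ α → F j ≠ 0 ∧ φ (F j) = 0 ∧ (F j).vars ⊆ insert j α) →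
    ∀ (κ : IntermediateField K (RF n K)) (ι : κ →ₐ[K] L),
      (∀ c : κ, ∃ N E : Pl n K, φ E ≠ 0 ∧ (c : RF n K) * fr E = fr N ∧ ι c * φ E = φ N) →
    ∀ (δ : ℕ) (θ : Fin δ → Pl n K), LinearIndependent ι.fieldRange (fun i => φ (θ i)) →
    ∀ D E : ℕ, (∀ j, j ∉ α → (F j).totalDegree ≤ D) → (∀ i, (θ i).totalDegree ≤ E) →
      ∀ N : ℕ, δ * cnt (n - α.card) N ≤ Module.finrank κ (Vd κ (gen n K) (D * N + E))

/-! ## Residues -/

/-- (Rel) PROOF. For `j ∉ α` the class of `X j` is algebraic over the subalgebra generated by the classes of the `X a`, `a ∈ α` (transcendence basis): the family indexed by `insert j α` is not algebraically independent (`IsTranscendenceBasis`: maximality; `AlgebraicIndependent` of the family on `insert j α` (injective) would contradict it). So there is a nonzero polynomial in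
the variables `X i`, `i ∈ insert j α`, which vanishes on the classes; rename it to `Pl n K` (`MvPolynomial.rename` along the injection, `vars_rename`). `F j = 0` for `j ∈ α`, or anything. -/
def StmtRel : Prop :=
  ∀ (K : Type) [Field K] (n : ℕ) (𝔭 : Ideal (Pl n K)) [𝔭.IsPrime] (α : Finset (Fin n)),
    IsTranscendenceBasis K (fun a : α => (cl 𝔭 (MvPolynomial.X (a : Fin n)) : CR 𝔭)) →
    ∃ F : Fin n → Pl n K, ∀ j, j ∉ α → F j ≠ 0 ∧ F j ∈ 𝔭 ∧ (F j).vars ⊆ insert j α

/-- (Res) The residue map of the field `κ = K(ρ(x_a) : a ∈ α)`. PROOF. Let `φ : Pl n K →ₐ[K] L` be `algebraMap (CR 𝔭) L ∘ mk`. `Rsd 𝔭 L g u` says: `g` is in the local ring `A_𝔭` and `u` is its residue; `u` is unique (`N * E' = N' * E` by injectivity of `fr`), residues are compatible with `+`, `*`, constants, and if `u ≠ 0` then `Rsd 𝔭 L g⁻¹ u⁻¹` (`N ∉ 𝔭`: `φ N = u * φ E ≠ 0`;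
`algebraMap (CR 𝔭) L` is injective). `Rsd 𝔭 L (ρ (gen a)) (ρb (φ (X a)))` (`Rst` and `Rsd 𝔭 L (fr (X a)) (φ (X a))`). The elements `ρb (φ (X a))`, `a ∈ α`, are algebraically independent over `K` (`α` is a transcendence basis of `CR 𝔭`, `CR 𝔭 → L` and `ρb` are injective). Let `κ = IntermediateField.adjoin K {ρ (gen a)}`. Every element of `κ` is
`P(ρ gen) / Q(ρ gen)` with `P, Q : MvPolynomial α K`, `Q(ρ gen) ≠ 0`, so `Q ≠ 0`, so the residue `Q(ρb φ)` of `Q(ρ gen)` is not `0`. So every `c ∈ κ` has a residue `ι c`, and `ι` is a `K`-algebra homomorphism by uniqueness. (Or: `κ₀ = {g ∈ A_𝔭 : g = 0 or g⁻¹ ∈ A_𝔭}`… induction `IntermediateField.adjoin_induction` does not give inverses of sums; use the quotients.)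
`ι.fieldRange = IntermediateField.adjoin K {ρb (φ (X a)) : a ∈ α}` is the image under `ρb` of `K(φ (X a))`. `L` is algebraic over `K(φ (X a) : a ∈ α)` (transcendence basis of `CR 𝔭`, so of its field of fractions) and generated by the `φ (X i)`, so finite over it. So `ρb.fieldRange` is finite over `ι.fieldRange` (isomorphism `ρb`), and `L` is finite over `ρb.fieldRange`
(`StmtG1` (1)). By multiplicativity (`ι.fieldRange ≤ ρb.fieldRange`; use `IntermediateField.extendScalars`, or `Module.finrank_mul_finrank` with `Algebra ι.fieldRange ρb.fieldRange` from the inclusion `IntermediateField.inclusion`; compare `SMap`-type arguments in `G1.lean`, the proof of (b)) `[L : ρb.fieldRange] ≤ [L : ι.fieldRange]` and the latter is finite. -/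
def StmtRes : Prop :=
  ∀ (K : Type) [Field K] (n : ℕ) (𝔭 : Ideal (Pl n K)) [𝔭.IsPrime] (α : Finset (Fin n)),
    IsTranscendenceBasis K (fun a : α => (cl 𝔭 (MvPolynomial.X (a : Fin n)) : CR 𝔭)) →
    ∀ (L : Type) [Field L] [Algebra (CR 𝔭) L] [IsFractionRing (CR 𝔭) L] [Algebra K L]
      [IsScalarTower K (CR 𝔭) L] (ρ : RF n K →ₐ[K] RF n K) (ρb : L →ₐ[K] L), Rst ρ 𝔭 L ρb →
    ∃ ι : IntermediateField.adjoin K (Set.range fun a : α => ρ (gen n K (a : Fin n))) →ₐ[K] L,
      (∀ c : IntermediateField.adjoin K (Set.range fun a : α => ρ (gen n K (a : Fin n))),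
        Rsd 𝔭 L (c : RF n K) (ι c)) ∧ Module.Finite ι.fieldRange L ∧
      Module.finrank ρb.fieldRange L ≤ Module.finrank ι.fieldRange L

/-- (Theta) PROOF. The `κb`-span `M` of the image of `Pl n K → L` is a `κb`-subalgebra of the finite dimensional field extension `L / κb`, so it is a field (`Subalgebra.isField_of_algebraic` or: a domain finite over a field), and it contains the image of `CR 𝔭`, so it contains all fractions: `M = L`. So the image of `Pl n K` spans `L` over `κb`;
choose a basis inside a spanning set (`Module.Basis.ofSpan` / `exists_linearIndependent`, `Submodule.exists_fun_fin_finrank_span_eq`) and preimages of its elements. -/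
def StmtTheta : Prop :=
  ∀ (K : Type) [Field K] (n : ℕ) (𝔭 : Ideal (Pl n K)) [𝔭.IsPrime]
    (L : Type) [Field L] [Algebra (CR 𝔭) L] [IsFractionRing (CR 𝔭) L] [Algebra K L]
      [IsScalarTower K (CR 𝔭) L] (κb : IntermediateField K L), Module.Finite κb L →
    ∃ θ : Fin (Module.finrank κb L) → Pl n K,
      LinearIndependent κb (fun i => algebraMap (CR 𝔭) L (cl 𝔭 (θ i)))

/-- (Trd) PROOF. `trdeg K (RF n K) = n` (`MvPolynomial.trdeg_of_isDomain` and the field of fractions: `Algebra.trdeg` of a localisation, or `gen n K` is a transcendence basis). `κ = K(y)` has transcendence degree `#ι` over `K` (`y`, as a family in `κ`, is a transcendence basis). `l` is a transcendence basis of `RF n K` over `κ` (independent, and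
`RF n K` is algebraic over `κ(l)`), so `trdeg κ (RF n K) = s`. Additivity: `Algebra.trdeg_add_eq`. All cardinals are finite. -/
def StmtTrd : Prop :=
  ∀ (K : Type) [Field K] (n : ℕ) (ι : Type) [Fintype ι] (y : ι → RF n K) (s : ℕ)
    (l : Fin s → RF n K), AlgebraicIndependent K y →
    AlgebraicIndependent (IntermediateField.adjoin K (Set.range y)) l →
    Module.Finite (IntermediateField.adjoin (IntermediateField.adjoin K (Set.range y))
      (Set.range l)) (RF n K) →
    Fintype.card ι + s = n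

/-! ## Assembly -/

/-- (Bk) Bookkeeping: the field of `degr`. PROOF. `B i = Pi.single (α.orderEmbOfFin h i) 1` (`h : α.card = r`), so `lf B g i = g (α.orderEmbOfFin h i)` and `Set.range (lf B g) = Set.range (fun a : α => g a)`. `fld A B g = (adjoin (adjoin K (range fun a : α => g a)) (range (lf A gen))).restrictScalars K` (`IntermediateField.adjoin_adjoin_left`, `Set.union_comm`), and `finrank`
does not change under `restrictScalars` (same carrier; `IntermediateField.restrictScalars` has the same underlying type: `rfl`-like, or `LinearEquiv`). So the finrank is one of the members of the supremum (`le_iSup₂`). -/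
def StmtBk : Prop :=
  ∀ (K : Type) [Field K] (n : ℕ) (α : Finset (Fin n)) (g : Fin n → RF n K)
    (A : Fin (n - α.card) → Fin n → K),
    (Module.finrank (IntermediateField.adjoin
      (IntermediateField.adjoin K (Set.range fun a : α => g (a : Fin n)))
      (Set.range (lf A (gen n K)))) (RF n K) : ENNReal) ≤ degr α.card g

/-- (DegrP) PROOF (uses all the statements above and `StmtRk1`). `α` from `StmtRk1` (`#α = rk 𝔭`; substitute), `F` from `StmtRel`, `D = ∑ j, (F j).totalDegree` (with `F j` replaced by `1` or ignored for `j ∈ α`), `C = (D + 1) ^ (n - rk 𝔭)`. Given `ρ, ρb`: `κ = adjoin K {ρ (gen a)}` and `ι` from `StmtRes` (`Rsd` unfolds to the hypothesis of `StmtLow3` with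
`φ = algebraMap (CR 𝔭) L ∘ mk`, `E ∉ 𝔭 ↔ φ E ≠ 0`), `δ = [L : ι.fieldRange]`, `θ` from `StmtTheta`, `E = ∑ i, (θ i).totalDegree`. `StmtLow3`: `δ * cnt (n - r) N ≤ dim Vd κ gen (D N + E)`. `StmtNN` for `K, κ, RF n K, gen n K`: `s, A, W`; `IntermediateField.adjoin κ (Set.range (gen n K)) = ⊤`; `StmtUpF`, `StmtUp`: `dim Vd κ gen a ≤ e * cnt s (a + C')`,
`e = [RF n K : κ(l)]`, `l = lf A (gen n K)`. `StmtTrd` for `y a = ρ (gen a)`, `a : α` (algebraically independent: `ρ` is injective and the `gen i` are algebraically independent): `r + s = n`; `s = n - r` (substitute). `StmtNum` (with `E + C'`): `δ ≤ e * (D + 1) ^ (n - r)`, and `[L : ρb L] ≤ δ`, `e ≤ degr r (ρ ∘ gen)` by `StmtBk`. -/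
def StmtDegrP : Prop :=
  ∀ (K : Type) [Field K] [Infinite K] (n : ℕ) (𝔭 : Ideal (Pl n K)) [𝔭.IsPrime]
    (L : Type) [Field L] [Algebra (CR 𝔭) L] [IsFractionRing (CR 𝔭) L] [Algebra K L]
      [IsScalarTower K (CR 𝔭) L], ∃ C : ℕ,
    ∀ (ρ : RF n K →ₐ[K] RF n K) (ρb : L →ₐ[K] L), Rst ρ 𝔭 L ρb →
      (Module.finrank ρb.fieldRange L : ENNReal) ≤ C * degr (rk 𝔭) (fun i => ρ (gen n K i))

/-- (DegrG) PROOF. `StmtDegrP` for `ρ ^ m`, `ρb ^ m` (`StmtG1` (b), (c)); `it ρ m i = (ρ ^ m) (gen n K i)` by definition. -/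
def StmtDegrG : Prop :=
  ∀ (K : Type) [Field K] [Infinite K] (n : ℕ) (𝔭 : Ideal (Pl n K)) [𝔭.IsPrime]
    (L : Type) [Field L] [Algebra (CR 𝔭) L] [IsFractionRing (CR 𝔭) L] [Algebra K L]
      [IsScalarTower K (CR 𝔭) L] (ρ : RF n K →ₐ[K] RF n K) (ρb : L →ₐ[K] L), Rst ρ 𝔭 L ρb →
    ∃ C : ℕ, ∀ m : ℕ, (Module.finrank ρb.fieldRange L : ENNReal) ^ m ≤ C * degr (rk 𝔭) (it ρ m)

/-- (DegrDesc) PROOF. `it σL m i = bc n K L (it σK m i)` (`cmp_it` in `KLV/Spec.lean`). It suffices to show for all `A, B` over `K`, with `A', B'` their images over `L`: `[RF n K : fld A B g] ≤ [RF n L : fld A' B' (bc ∘ g)]` (`g = it σK m`). `κ = fld A B g = K(y)`, `κ' = L(bc y)`, `y` a finite family (`Sum.elim (lf A gen) (lf B g)`). If `[RF n K : κ] = 0` nothing is to be shown;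
otherwise it is finite: `d`. (i) `RF n L` is finite over `κ'`: it is generated over `L` by `gen n L i = bc (gen n K i)`, and these are algebraic over `κ'` (apply `bc` to an equation over `κ`; `bc κ ⊆ κ'`). (ii) Let `w_1, …, w_d ∈ RF n K` be a basis over `κ`. The `bc w_i` are linearly independent over `κ'`: suppose `∑ c_i bc w_i = 0`, `c_i ∈ κ'` not all `0`; multiply by a common denominator: `c_i = P_i(bc y)`,
`P_i` polynomials over `L`. Let `b_1, …, b_q ∈ L` be linearly independent over `K` with all coefficients of all `P_i` in their span: `P_i = ∑ t, b_t P_(i t)`, `P_(i t)` polynomials over `K`. So `∑ t, b_t bc (∑ i, P_(i t)(y) w_i) = 0`. CLAIM: elements of `L` linearly independent over `K` are linearly independent over `bc (RF n K)`: `∑ t, b_t bc h_t = 0`, multiply by a common denominator: `h_t = fr H_t`,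
`∑ t, b_t map H_t = 0` in `Pl n L` (`bc_fr`, injectivity of `fr`); compare the coefficients of every monomial: `H_t = 0`. So `∑ i, P_(i t)(y) w_i = 0` for all `t`, so `P_(i t)(y) = 0` and `c_i = 0`. (iii) `d ≤ [RF n L : κ']` by (i), (ii). -/
def StmtDegrDesc : Prop :=
  ∀ (K L : Type) [Field K] [Field L] [Algebra K L] (n : ℕ) (σK : RF n K →ₐ[K] RF n K)
    (σL : RF n L →ₐ[L] RF n L), Cmp σK σL → ∀ r m : ℕ, degr r (it σK m) ≤ degr r (it σL m)

/-- (Real2) PROOF. `lim sup < τ`, so `τ ≠ 0`; choose `c : NNReal` with `lim sup < c < τ` (`ENNReal.lt_iff_exists_nnreal_btwn`). For large `m` `d m ^ (1/m) < c` (`Filter.eventually_lt_of_limsup_lt`), so `d m ≤ c ^ m` (`ENNReal.rpow_natCast`, `ENNReal.rpow_inv_le_iff`-type lemmas, `m ≥ 1`). `C * (c / τ) ^ (M m) → 0` (`c / τ < 1`), so `C * c ^ (M m) < τ ^ (M m)` for large `m`. -/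
def StmtReal2 : Prop :=
  ∀ (d : ℕ → ENNReal) (τ : ℕ),
    Filter.limsup (fun m : ℕ => d m ^ ((m : ℝ)⁻¹)) Filter.atTop < (τ : ENNReal) →
    ∀ M C : ℕ, 1 ≤ M → ∃ m : ℕ, (C : ENNReal) * d (M * m) < (τ : ENNReal) ^ (M * m)

/-- (NFD) PROOF (uses `StmtDegrG`, `StmtDegrDesc`, `StmtReal2`). Let `𝔭`, `L`, `ρb` be as in `NoFull σK M`, `r = rk 𝔭`, and suppose `tp σ ^ M ≤ Δ = [L : ρb L]`. `StmtDegrG` for `ρ = σK ^ M`: `C` with `(tp σ) ^ (M m) ≤ Δ ^ m ≤ C * degr r (it (σK ^ M) m)` and `it (σK ^ M) m = it σK (M * m)` (`pow_mul`), `≤ C * degr r (it σ (M * m))` (`StmtDegrDesc`).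
`StmtReal2` for `d = degr r (it σ ·)`: a contradiction. (`K` is infinite: characteristic `0`; `K` embeds in `k`.) -/
def StmtNFD : Prop :=
  ∀ (k : Type) [Field k] [CharZero k] (n : ℕ) (σ : RF n k →ₐ[k] RF n k),
    (∀ r : ℕ, 1 ≤ r → r + 2 ≤ n → lam r σ < (tp σ : ENNReal)) →
    ∀ M : ℕ, 1 ≤ M → ∀ (K : Type) [Field K] [CharZero K] [Algebra K k]
      (σK : RF n K →ₐ[K] RF n K), Cmp σK σ → tp σK = tp σ → NoFull σK M

end Pool.Agent.Lib.MP_16285c_agN
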