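import Mathlib
import Pool.Agent.Lib.MP_16285c_agN.Degr.Spec

/-!
# Dimensions of the spaces `Vd`

Proof of `StmtVd`.
-/

set_option autoImplicit false

namespace Pool.Agent.Lib.MP_16285c_agN

open Pool.Agent.Lib.MP_16285c_ag

namespace DegrVdM

/-- The exponents of total degree at most `a`, as finitely supported functions or as functions. -/
theorem card_exps (c a : ℕ) :
    Nat.card ({u : Fin c →₀ ℕ | (u.sum fun _ e => e) ≤ a} : Set (Fin c →₀ ℕ)) = cnt c a := by
  unfold cnt
  refine Nat.card_congr (Equiv.subtypeEquiv Finsupp.equivFunOnFinite ?_)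
  intro u
  rw [Set.mem_ofPred_eq, Finsupp.sum_fintype _ _ (fun _ => rfl)]
  rfl

/-- The dimension of the space of polynomials of total degree at most `a`. -/
theorem finrank_rtd (κ : Type) [Field κ] (c a : ℕ) :
    Module.finrank κ (MvPolynomial.restrictTotalDegree (Fin c) κ a) = cnt c a := by
  rw [← card_exps]
  exact Module.finrank_eq_nat_card_basis
    (MvPolynomial.basisRestrictSupport κ {u : Fin c →₀ ℕ | (u.sum fun _ e => e) ≤ a})

end DegrVdM

/-- (Vd) The spaces `Vd` are finite dimensional, of dimension `cnt c a` for independent elements. -/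
theorem tVd : StmtVd := by
  refine ⟨?_, ?_⟩
  · intro κ F _ _ _ c x a
    exact Module.Finite.map (MvPolynomial.restrictTotalDegree (Fin c) κ a)
      (MvPolynomial.aeval x).toLinearMap
  · intro κ F _ _ _ c x a hx
    rw [← DegrVdM.finrank_rtd κ c a]
    exact (LinearEquiv.finrank_eq (Submodule.equivMapOfInjective
      (MvPolynomial.aeval x).toLinearMap hx _)).symm

end Pool.Agent.Lib.MP_16285c_agN
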