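import Pool.Agent.Lib.MP_16285c_agN.Degr.Spec

/-!
# ZDO2, package DEGR: `F` is finite over `κ(l)`
-/

set_option autoImplicit false

namespace Pool.Agent.Lib.MP_16285c_agN

open Pool.Agent.Lib.MP_16285c_ag

namespace DegrUpFM

variable {κ F : Type} [Field κ] [Field F] [Algebra κ F]

/-- `(x j) ^ k` is a polynomial of degree `≤ k` in `x`. -/
theorem pow_mem_Vd {c : ℕ} (x : Fin c → F) (j : Fin c) (k : ℕ) : x j ^ k ∈ Vd κ x k := by
  refine Submodule.mem_map.2 ⟨MvPolynomial.X j ^ k, ?_, by simp⟩
  rw [MvPolynomial.mem_restrictTotalDegree, MvPolynomial.totalDegree_X_pow]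

/-- The values of the polynomials in `l` are in `κ(l)`. -/
theorem Vd_sub {s : ℕ} (l : Fin s → F) (a : ℕ) {v : F} (hv : v ∈ Vd κ l a) :
    v ∈ IntermediateField.adjoin κ (Set.range l) := by
  obtain ⟨p, -, rfl⟩ := Submodule.mem_map.1 hv
  have h : MvPolynomial.aeval l p ∈ Algebra.adjoin κ (Set.range l) := by
    rw [Algebra.adjoin_range_eq_range_aeval]
    exact ⟨p, rfl⟩
  exact IntermediateField.algebra_adjoin_le_adjoin κ _ h

/-- A field of fractions generated by integral elements. -/
theorem fin_of_int {c : ℕ} (x : Fin c → F) (hx : IntermediateField.adjoin κ (Set.range x) = ⊤)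
    (F0 : IntermediateField κ F) (hi : ∀ j, IsIntegral F0 (x j)) : Module.Finite F0 F := by
  have h1 : FiniteDimensional F0 (IntermediateField.adjoin F0 (Set.range x)) := by
    apply IntermediateField.finiteDimensional_adjoin
    rintro _ ⟨j, rfl⟩
    exact hi j
  have h2 : IntermediateField.adjoin F0 (Set.range x) = ⊤ := by
    have h3 : IntermediateField.adjoin κ (Set.range x) ≤
        (IntermediateField.adjoin F0 (Set.range x)).restrictScalars κ := by
      rw [IntermediateField.adjoin_le_iff]
      exact IntermediateField.subset_adjoin _ _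
    rw [hx] at h3
    rw [eq_top_iff]
    intro y _
    exact h3 (IntermediateField.mem_top : y ∈ (⊤ : IntermediateField κ F))
  rw [h2] at h1
  exact Module.Finite.equiv (IntermediateField.topEquiv (F := F0) (E := F)).toLinearEquiv

end DegrUpFM

/-- **UpF** -/
theorem tUpF : StmtUpF := by
  intro κ F _ _ _ c s x l W hx hW hV
  set F0 := IntermediateField.adjoin κ (Set.range l) with hF0
  apply DegrUpFM.fin_of_int x hx F0
  intro j
  let M : Submodule F0 F := Submodule.span F0 (W : Set F)
  have hM : M.FG := by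
    obtain ⟨t, ht⟩ := hW
    refine ⟨t, ?_⟩
    show Submodule.span F0 (t : Set F) = Submodule.span F0 (W : Set F)
    rw [← ht, Submodule.span_span_of_tower]
  have hMf : Module.Finite F0 M := Module.Finite.iff_fg.2 hM
  have hle : ∀ a : ℕ, ∀ y ∈ Vd κ x a, y ∈ M := by
    intro a y hy
    have h1 : W * Vd κ l a ≤ M.restrictScalars κ := by
      rw [Submodule.mul_le]
      intro w hw v hv
      have h2 : w * v = (⟨v, DegrUpFM.Vd_sub l a hv⟩ : F0) • w := by
        rw [mul_comm]
        rfl
      rw [h2]
      exact M.smul_mem _ (Submodule.subset_span hw)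
    exact h1 (hV a hy)
  have hA : (Subalgebra.toSubmodule (Algebra.adjoin F0 {x j})) ≤ M := by
    rw [Algebra.adjoin_eq_span, Submodule.span_le]
    intro y hy
    obtain ⟨k, rfl⟩ := Submonoid.mem_closure_singleton.1 hy
    exact hle k _ (DegrUpFM.pow_mem_Vd x j k)
  exact IsIntegral.of_mem_of_fg (Algebra.adjoin F0 {x j})
    (Submodule.FG.of_le_of_isNoetherian hA) (x j) (Algebra.subset_adjoin rfl)

end Pool.Agent.Lib.MP_16285c_agN
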