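import Pool.Agent.Lib.MP_16285c_agN.Degr.Spec

/-!
# Growth on subvarieties: the upper bound
-/

set_option autoImplicit false

namespace Pool.Agent.Lib.MP_16285c_agN

open Pool.Agent.Lib.MP_16285c_ag

namespace DegrUpM

section

variable {κ F : Type} [Field κ] [Field F] [Algebra κ F] {s : ℕ} (l : Fin s → F)

theorem mem_Vd {a : ℕ} {z : F} :
    z ∈ Vd κ l a ↔ ∃ p : MvPolynomial (Fin s) κ, p.totalDegree ≤ a ∧ MvPolynomial.aeval l p = z := by
  unfold Vd
  rw [Submodule.mem_map]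
  simp only [MvPolynomial.mem_restrictTotalDegree, AlgHom.toLinearMap_apply]

theorem Vd_mono {a b : ℕ} (h : a ≤ b) {z : F} (hz : z ∈ Vd κ l a) : z ∈ Vd κ l b := by
  obtain ⟨p, hp, rfl⟩ := (mem_Vd l).1 hz
  exact (mem_Vd l).2 ⟨p, hp.trans h, rfl⟩

theorem Vd_mul {a b : ℕ} {z w : F} (hz : z ∈ Vd κ l a) (hw : w ∈ Vd κ l b) : z * w ∈ Vd κ l (a + b) := by
  obtain ⟨p, hp, rfl⟩ := (mem_Vd l).1 hz
  obtain ⟨q, hq, rfl⟩ := (mem_Vd l).1 hw
  exact (mem_Vd l).2 ⟨p * q, (MvPolynomial.totalDegree_mul _ _).trans (add_le_add hp hq), map_mul _ _ _⟩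

/-- Fractions. -/
theorem frac {t : F} (ht : t ∈ IntermediateField.adjoin κ (Set.range l)) :
    ∃ r q : MvPolynomial (Fin s) κ, MvPolynomial.aeval l q ≠ 0 ∧
      MvPolynomial.aeval l q * t = MvPolynomial.aeval l r := by
  obtain ⟨r, q, h⟩ := (IntermediateField.mem_adjoin_range_iff κ l t).1 ht
  by_cases hq : MvPolynomial.aeval l q = 0
  · refine ⟨0, 1, by simp, ?_⟩
    rw [h, hq]
    simp
  · refine ⟨r, q, hq, ?_⟩
    rw [h]
    field_simp

/-- Common denominators. -/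
theorem common {e : ℕ} (t : Fin e → F) (ht : ∀ j, t j ∈ IntermediateField.adjoin κ (Set.range l)) :
    ∃ (q : F) (C : ℕ), q ≠ 0 ∧ q ∈ Vd κ l C ∧ ∀ j, q * t j ∈ Vd κ l C := by
  choose r q hq hr using fun j => frac l (ht j)
  refine ⟨∏ j, MvPolynomial.aeval l (q j), (∏ j, q j).totalDegree +
    ∑ j, ((∏ i ∈ Finset.univ.erase j, q i) * r j).totalDegree,
    Finset.prod_ne_zero_iff.2 fun j _ => hq j, ?_, fun j => ?_⟩
  · exact (mem_Vd l).2 ⟨∏ j, q j, Nat.le_add_right _ _, map_prod _ _ _⟩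
  · refine (mem_Vd l).2 ⟨(∏ i ∈ Finset.univ.erase j, q i) * r j, ?_, ?_⟩
    · exact (Finset.single_le_sum (f := fun j => ((∏ i ∈ Finset.univ.erase j, q i) * r j).totalDegree)
        (fun _ _ => Nat.zero_le _) (Finset.mem_univ j)).trans (Nat.le_add_left _ _)
    · rw [map_mul, map_prod, ← hr j, ← Finset.mul_prod_erase Finset.univ (fun j => MvPolynomial.aeval l (q j))
        (Finset.mem_univ j)]
      ring

variable {e : ℕ} (η : Fin e → F)

/-- The linear combinations of the `η j` with coefficients of degree `≤ a`. -/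
noncomputable def cmb (a : ℕ) : (Fin e → Vd κ l a) →ₗ[κ] F where
  toFun t := ∑ j, (t j : F) * η j
  map_add' t t' := by
    simp only [Pi.add_apply, Submodule.coe_add, add_mul, Finset.sum_add_distrib]
  map_smul' c t := by
    simp only [Pi.smul_apply, Submodule.coe_smul, Algebra.smul_mul_assoc, Finset.smul_sum, RingHom.id_apply]

/-- Their space. -/
noncomputable def Nn (a : ℕ) : Submodule κ F := LinearMap.range (cmb (κ := κ) l η a)

theorem mem_Nn {a : ℕ} {z : F} : z ∈ Nn (κ := κ) l η a ↔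
    ∃ t : Fin e → F, (∀ j, t j ∈ Vd κ l a) ∧ ∑ j, t j * η j = z := by
  unfold Nn
  rw [LinearMap.mem_range]
  constructor
  · rintro ⟨t, rfl⟩
    exact ⟨fun j => (t j : F), fun j => (t j).2, rfl⟩
  · rintro ⟨t, ht, rfl⟩
    exact ⟨fun j => ⟨t j, ht j⟩, rfl⟩

theorem Nn_mono {a b : ℕ} (h : a ≤ b) {z : F} (hz : z ∈ Nn (κ := κ) l η a) : z ∈ Nn (κ := κ) l η b := by
  obtain ⟨t, ht, rfl⟩ := (mem_Nn l η).1 hz
  exact (mem_Nn l η).2 ⟨t, fun j => Vd_mono l h (ht j), rfl⟩

theorem Nn_mul {a b : ℕ} {z w : F} (hz : z ∈ Vd κ l a) (hw : w ∈ Nn (κ := κ) l η b) :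
    z * w ∈ Nn (κ := κ) l η (a + b) := by
  obtain ⟨t, ht, rfl⟩ := (mem_Nn l η).1 hw
  refine (mem_Nn l η).2 ⟨fun j => z * t j, fun j => Vd_mul l hz (ht j), ?_⟩
  rw [Finset.mul_sum]
  exact Finset.sum_congr rfl fun j _ => mul_assoc _ _ _

end

/-- Denominators for a finitely generated space. -/
theorem denom {κ F : Type} [Field κ] [Field F] [Algebra κ F] {s : ℕ} (l : Fin s → F)
    [Module.Finite (IntermediateField.adjoin κ (Set.range l)) F] (W : Submodule κ F) (hW : W.FG) :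
    ∃ (q : F) (C : ℕ), q ≠ 0 ∧ q ∈ Vd κ l C ∧ ∀ w ∈ W, q * w ∈ Nn (κ := κ) l
      (Module.finBasis (IntermediateField.adjoin κ (Set.range l)) F) C := by
  set η := Module.finBasis (IntermediateField.adjoin κ (Set.range l)) F with hη
  induction W, hW using Submodule.fg_induction with
  | singleton w =>
    obtain ⟨q, C, hq, hqC, hC⟩ := common l (fun j => ((η.repr w j : IntermediateField.adjoin κ (Set.range l)) : F))
      fun j => (η.repr w j).2
    refine ⟨q, C, hq, hqC, fun w' hw' => ?_⟩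
    obtain ⟨c, rfl⟩ := Submodule.mem_span_singleton.1 hw'
    have h1 : q * w ∈ Nn (κ := κ) l η C := by
      refine (mem_Nn l η).2 ⟨fun j => q * ((η.repr w j : IntermediateField.adjoin κ (Set.range l)) : F), hC, ?_⟩
      have h2 : ∑ j, ((η.repr w j : IntermediateField.adjoin κ (Set.range l)) : F) * η j = w := by
        conv_rhs => rw [← η.sum_repr w]
        exact Finset.sum_congr rfl fun j _ => rfl
      conv_rhs => rw [← h2]
      rw [Finset.mul_sum]
      exact Finset.sum_congr rfl fun j _ => mul_assoc _ _ _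
    rw [mul_smul_comm]
    exact Submodule.smul_mem _ c h1
  | sup W₁ W₂ h₁ h₂ ih₁ ih₂ =>
    obtain ⟨q₁, C₁, hq₁, hqC₁, hC₁⟩ := ih₁
    obtain ⟨q₂, C₂, hq₂, hqC₂, hC₂⟩ := ih₂
    refine ⟨q₁ * q₂, C₁ + C₂, mul_ne_zero hq₁ hq₂, Vd_mul l hqC₁ hqC₂, fun w hw => ?_⟩
    obtain ⟨w₁, hw₁, w₂, hw₂, rfl⟩ := Submodule.mem_sup.1 hw
    have e : q₁ * q₂ * (w₁ + w₂) = q₂ * (q₁ * w₁) + q₁ * (q₂ * w₂) := by ring
    rw [e]
    refine Submodule.add_mem _ ?_ (Nn_mul l η hqC₁ (hC₂ w₂ hw₂))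
    rw [add_comm C₁ C₂]
    exact Nn_mul l η hqC₂ (hC₁ w₁ hw₁)

end DegrUpM

open DegrUpM in
/-- (Up) -/
theorem tUp : StmtVd → StmtUp := by
  intro hVd κ F _ _ _ c s x l W hl hW hx hF
  have := hF
  obtain ⟨q, C, hq, -, hC⟩ := denom l W hW
  set η := Module.finBasis (IntermediateField.adjoin κ (Set.range l)) F with hη
  refine ⟨C, fun a => ?_⟩
  have h1 : Module.Finite κ (Vd κ l (a + C)) := hVd.1 κ F s l (a + C)
  have h2 : Module.Finite κ (Nn (κ := κ) l η (a + C)) := Module.Finite.range _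
  have hm : ∀ v ∈ W * Vd κ l a, q * v ∈ Nn (κ := κ) l η (a + C) := by
    intro v hv
    refine Submodule.mul_induction_on hv (fun w hw u hu => ?_) fun v₁ v₂ h₁ h₂ => ?_
    · have e : q * (w * u) = u * (q * w) := by ring
      rw [e]
      exact Nn_mul l η hu (hC w hw)
    · rw [mul_add]
      exact Submodule.add_mem _ h₁ h₂
  have h3 : Module.finrank κ (Vd κ x a) ≤ Module.finrank κ (Nn (κ := κ) l η (a + C)) := by
    refine LinearMap.finrank_le_finrank_of_injective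
      (f := (LinearMap.mulLeft κ q).restrict (p := Vd κ x a) (q := Nn (κ := κ) l η (a + C))
        fun v hv => hm v (hx a hv)) fun u v huv => ?_
    have h4 := congrArg Subtype.val huv
    exact Subtype.ext (mul_left_cancel₀ hq h4)
  have h5 : Module.finrank κ (Nn (κ := κ) l η (a + C)) ≤
      Module.finrank (IntermediateField.adjoin κ (Set.range l)) F * cnt s (a + C) := by
    refine (LinearMap.finrank_range_le _).trans (le_of_eq ?_)
    rw [Module.finrank_pi_fintype, Finset.sum_const, Finset.card_univ, Fintype.card_fin, smul_eq_mul,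
      hVd.2 κ F s l (a + C) hl]
  exact h3.trans h5

end Pool.Agent.Lib.MP_16285c_agN
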