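import Pool.Agent.Lib.MP_16285c_agN.Degr.Spec

/-! # The degrees `degr` over a smaller field -/

set_option autoImplicit false

namespace Pool.Agent.Lib.MP_16285c_agN

open Pool.Agent.Lib.MP_16285c_ag

namespace DegrDegrDescM

variable {n : ℕ} {K L : Type} [Field K] [Field L] [Algebra K L]

theorem adj_top (κ : IntermediateField K (RF n K)) :
    IntermediateField.adjoin κ (Set.range (gen n K)) = ⊤ := by
  have hfr : ∀ G : Pl n K, fr G ∈ IntermediateField.adjoin κ (Set.range (gen n K)) := by
    intro G
    induction G using MvPolynomial.induction_on with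
    | C c =>
      rw [fr_C]
      exact (IntermediateField.adjoin κ (Set.range (gen n K))).algebraMap_mem (algebraMap K κ c)
    | add p q hp hq =>
      rw [fr_add]
      exact add_mem hp hq
    | mul_X p i hp =>
      rw [fr_mul]
      exact mul_mem hp (IntermediateField.subset_adjoin κ _ ⟨i, rfl⟩)
  rw [eq_top_iff]
  intro g _
  obtain ⟨N, E, _, rfl⟩ := exists_fr g
  exact div_mem (hfr N) (hfr E)

/-- linear disjointness -/
theorem disj {r : ℕ} (l : Fin r → L) (hl : LinearIndependent K l) (c : Fin r → RF n K)
    (hc : ∑ j, algebraMap L (RF n L) (l j) * bc n K L (c j) = 0) : ∀ j, c j = 0 := by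
  obtain ⟨b, hb⟩ := IsLocalization.exist_integer_multiples (nonZeroDivisors (MvPolynomial (Fin n) K))
    (Finset.univ : Finset (Fin r)) c
  have hb0 : (b : Pl n K) ≠ 0 := nonZeroDivisors.ne_zero b.2
  have hP : ∀ j, ∃ P : Pl n K, fr P = fr (b : Pl n K) * c j := by
    intro j
    obtain ⟨P, hP⟩ := hb j (Finset.mem_univ j)
    refine ⟨P, ?_⟩
    rw [fr, hP, Algebra.smul_def]
  choose P hP using hP
  have h1 : ∑ j, MvPolynomial.C (l j) * MvPolynomial.map (algebraMap K L) (P j) = 0 := by
    apply fr_injective (n := n) (K := L)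
    refine (map_sum (algebraMap (MvPolynomial (Fin n) L) (FractionRing (MvPolynomial (Fin n) L)))
      _ _).trans (Eq.trans ?_ (map_zero _).symm)
    have h2 : ∀ j, fr (MvPolynomial.C (l j) * MvPolynomial.map (algebraMap K L) (P j)) =
        bc n K L (fr (b : Pl n K)) * (algebraMap L (RF n L) (l j) * bc n K L (c j)) := by
      intro j
      rw [fr_mul, fr_C, ← bc_fr, hP, map_mul]
      ring
    refine (Finset.sum_congr rfl fun j _ => h2 j).trans ?_
    rw [← Finset.mul_sum, hc, mul_zero]
  intro j
  have h4 : P j = 0 := by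
    ext m
    have h5 : ∑ i, (P i).coeff m • l i = 0 := by
      have h6 := congrArg (MvPolynomial.coeff m) h1
      rw [MvPolynomial.coeff_sum, MvPolynomial.coeff_zero] at h6
      rw [← h6]
      refine Finset.sum_congr rfl fun i _ => ?_
      rw [MvPolynomial.coeff_C_mul, MvPolynomial.coeff_map, Algebra.smul_def, mul_comm]
    rw [MvPolynomial.coeff_zero]
    exact Fintype.linearIndependent_iff.1 hl _ h5 j
  have h7 := hP j
  rw [h4, fr_eq_zero.mpr rfl] at h7
  exact (mul_eq_zero.1 h7.symm).resolve_left (fr_ne_zero hb0)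

section phi

variable {τ : Type} (b : Module.Basis τ K L)

/-- combinations of the elements of a basis of `L` over `K` with coefficients in the function field -/
noncomputable def Phi : (τ →₀ RF n K) →+ RF n L :=
  Finsupp.liftAddHom fun t =>
    (AddMonoidHom.mulLeft (algebraMap L (RF n L) (b t))).comp (bc n K L : RF n K →+ RF n L)

theorem phi_apply (f : τ →₀ RF n K) :
    Phi b f = f.sum fun t x => algebraMap L (RF n L) (b t) * bc n K L x := rfl

theorem phi_single (t : τ) (x : RF n K) :
    Phi b (Finsupp.single t x) = algebraMap L (RF n L) (b t) * bc n K L x := by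
  rw [phi_apply, Finsupp.sum_single_index (by rw [map_zero, mul_zero])]

theorem phi_inj (f : τ →₀ RF n K) (hf : Phi b f = 0) : f = 0 := by
  classical
  let e := f.support.equivFin.symm
  have h1 : ∑ j, algebraMap L (RF n L) (b (e j)) * bc n K L (f (e j)) = 0 := by
    rw [← hf, phi_apply, Finsupp.sum]
    rw [← Finset.sum_coe_sort f.support
      (fun t => algebraMap L (RF n L) (b t) * bc n K L (f t))]
    exact Equiv.sum_comp e (fun t : f.support => algebraMap L (RF n L) (b t) * bc n K L (f t))
  have h2 := disj (fun j => b (e j)) (b.linearIndependent.comp (fun j => (e j : τ))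
    (Subtype.val_injective.comp e.injective)) (fun j => f (e j)) h1
  ext t
  by_contra ht
  have ht' : t ∈ f.support := Finsupp.mem_support_iff.mpr ht
  have h3 := h2 (e.symm ⟨t, ht'⟩)
  rw [Equiv.apply_symm_apply] at h3
  exact ht h3

/-- the product of a constant and an element of the smaller function field -/
theorem phi_smul (S : Set (RF n K)) (l : L) (k : RF n K) (hk : k ∈ IntermediateField.adjoin K S) :
    ∃ f : τ →₀ RF n K, (∀ t, f t ∈ IntermediateField.adjoin K S) ∧
      Phi b f = algebraMap L (RF n L) l * bc n K L k := by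
  refine ⟨(b.repr l).mapRange (fun c => c • k) (zero_smul K k), fun t => ?_, ?_⟩
  · rw [Finsupp.mapRange_apply]
    exact IntermediateField.smul_mem _ hk
  · rw [phi_apply, Finsupp.sum_mapRange_index (fun t => by rw [map_zero, mul_zero])]
    have h1 : ∀ (t : τ) (c : K), algebraMap L (RF n L) (b t) * bc n K L (c • k) =
        algebraMap L (RF n L) (c • b t) * bc n K L k := by
      intro t c
      rw [Algebra.smul_def, Algebra.smul_def, map_mul, map_mul, bc_algebraMap]
      ring
    simp_rw [h1]
    rw [Finsupp.sum, ← Finset.sum_mul, ← map_sum]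
    congr 2
    exact b.linearCombination_repr l

theorem phi_span (S : Set (RF n K)) (x : RF n L)
    (hx : x ∈ Algebra.adjoin L (bc n K L '' S)) :
    ∃ f : τ →₀ RF n K, (∀ t, f t ∈ IntermediateField.adjoin K S) ∧ Phi b f = x := by
  classical
  induction hx using Algebra.adjoin_induction with
  | mem x hx =>
    obtain ⟨s, hs, rfl⟩ := hx
    obtain ⟨f, hf, hf'⟩ := phi_smul b S (1 : L) s (IntermediateField.subset_adjoin K S hs)
    exact ⟨f, hf, by rw [hf', map_one, one_mul]⟩
  | algebraMap l =>
    obtain ⟨f, hf, hf'⟩ := phi_smul b S l 1 (one_mem _)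
    exact ⟨f, hf, by rw [hf', map_one, mul_one]⟩
  | add x y _ _ hx hy =>
    obtain ⟨f, hf, rfl⟩ := hx
    obtain ⟨g, hg, rfl⟩ := hy
    exact ⟨f + g, fun t => add_mem (hf t) (hg t), map_add _ _ _⟩
  | mul x y _ _ hx hy =>
    obtain ⟨f, hf, rfl⟩ := hx
    obtain ⟨g, hg, rfl⟩ := hy
    have h1 : ∀ t u, ∃ h : τ →₀ RF n K, (∀ v, h v ∈ IntermediateField.adjoin K S) ∧
        Phi b h = algebraMap L (RF n L) (b t * b u) * bc n K L (f t * g u) := fun t u =>
      phi_smul b S _ _ (mul_mem (hf t) (hg u))
    choose h hh hh' using h1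
    refine ⟨∑ t ∈ f.support, ∑ u ∈ g.support, h t u, fun v => ?_, ?_⟩
    · rw [Finsupp.finsetSum_apply]
      refine sum_mem fun t _ => ?_
      rw [Finsupp.finsetSum_apply]
      exact sum_mem fun u _ => hh t u v
    · rw [map_sum, phi_apply, phi_apply, Finsupp.sum, Finsupp.sum, Finset.sum_mul_sum]
      refine Finset.sum_congr rfl fun t _ => ?_
      rw [map_sum]
      refine Finset.sum_congr rfl fun u _ => ?_
      rw [hh', map_mul, map_mul]
      ring

end phi

open scoped IntermediateField.algebraAdjoinAdjoin

theorem key (S : Set (RF n K)) :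
    Module.finrank (IntermediateField.adjoin K S) (RF n K) ≤
      Module.finrank (IntermediateField.adjoin L (bc n K L '' S)) (RF n L) := by
  classical
  rcases Nat.eq_zero_or_pos (Module.finrank (IntermediateField.adjoin K S) (RF n K)) with h0 | hpos
  · rw [h0]
    exact Nat.zero_le _
  have hfin : Module.Finite (IntermediateField.adjoin K S) (RF n K) := Module.finite_of_finrank_pos hpos
  set κ := IntermediateField.adjoin K S with hκ
  set κ' := IntermediateField.adjoin L (bc n K L '' S) with hκ'
  -- `bc` maps `κ` into `κ'`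
  have hmap : ∀ x ∈ κ, bc n K L x ∈ κ' := by
    intro x hx
    induction hx using IntermediateField.adjoin_induction with
    | mem x hx => exact IntermediateField.subset_adjoin L _ ⟨x, hx, rfl⟩
    | algebraMap c =>
      rw [bc_algebraMap]
      exact κ'.algebraMap_mem _
    | add x y _ _ hx hy =>
      rw [map_add]
      exact add_mem hx hy
    | inv x _ hx =>
      rw [map_inv₀]
      exact inv_mem hx
    | mul x y _ _ hx hy =>
      rw [map_mul]
      exact mul_mem hx hy
  let β : κ →+* κ' := ((bc n K L).comp (algebraMap κ (RF n K))).codRestrict κ' fun x => hmap _ x.2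
  have hβ : (algebraMap κ' (RF n L)).comp β = (bc n K L).comp (algebraMap κ (RF n K)) := rfl
  -- finiteness
  have hfin' : Module.Finite κ' (RF n L) := by
    have h1 : ∀ x ∈ Set.range (gen n L), IsIntegral κ' x := by
      rintro _ ⟨i, rfl⟩
      obtain ⟨p, hp, hp0⟩ := IsIntegral.of_finite κ (gen n K i)
      refine ⟨p.map β, hp.map β, ?_⟩
      rw [Polynomial.eval₂_map, hβ, ← bc_gen (K := K), ← Polynomial.hom_eval₂, hp0, map_zero]
    have h2 : FiniteDimensional κ' (IntermediateField.adjoin κ' (Set.range (gen n L))) :=
      IntermediateField.finiteDimensional_adjoin h1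
    rw [adj_top] at h2
    exact Module.Finite.equiv (IntermediateField.topEquiv (F := κ') (E := RF n L)).toLinearEquiv
  -- linear independence
  have hfree : Module.Free κ (RF n K) := Module.Free.of_divisionRing κ (RF n K)
  let w := Module.finBasis κ (RF n K)
  have hli : LinearIndependent κ' (fun i => bc n K L (w i)) := by
    have h1 : LinearIndependent (Algebra.adjoin L (bc n K L '' S)) (fun i => bc n K L (w i)) := by
      rw [Fintype.linearIndependent_iff]
      intro g hg
      let b := Module.Basis.ofVectorSpace K L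
      have h2 : ∀ i, ∃ f : _ →₀ RF n K, (∀ t, f t ∈ κ) ∧ Phi b f = (g i : RF n L) :=
        fun i => phi_span b S _ (g i).2
      choose f hf hf' using h2
      have h3 : Phi b (∑ i, (f i).mapRange (fun x => x * w i) (zero_mul _)) = 0 := by
        rw [map_sum, ← hg]
        refine Finset.sum_congr rfl fun i _ => ?_
        have h4 : (g i) • bc n K L (w i) = (g i : RF n L) * bc n K L (w i) := rfl
        rw [h4, ← hf' i, phi_apply, phi_apply, Finsupp.sum_mapRange_index (fun t => by rw [map_zero, mul_zero]),
          Finsupp.sum_mul]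
        refine Finsupp.sum_congr fun t _ => ?_
        rw [map_mul, mul_assoc]
      have h4 := phi_inj b _ h3
      intro i
      have h5 : f i = 0 := by
        ext t
        have h6 := DFunLike.congr_fun h4 t
        rw [Finsupp.finsetSum_apply] at h6
        simp_rw [Finsupp.mapRange_apply] at h6
        have h7 := Fintype.linearIndependent_iff.1 w.linearIndependent (fun i => (⟨f i t, hf i t⟩ : κ)) h6 i
        exact congrArg Subtype.val h7
      apply Subtype.ext
      rw [← hf' i, h5, map_zero]
      rfl
    exact (LinearIndependent.iff_fractionRing (Algebra.adjoin L (bc n K L '' S)) κ').mp h1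
  have h8 := hli.fintype_card_le_finrank
  rwa [Fintype.card_fin] at h8

theorem lf_bc {c : ℕ} (A : Fin c → Fin n → K) (g : Fin n → RF n K) (g' : Fin n → RF n L)
    (hg : ∀ i, g' i = bc n K L (g i)) :
    Set.range (lf (fun i j => algebraMap K L (A i j)) g') = bc n K L '' Set.range (lf A g) := by
  rw [← Set.range_comp]
  congr 1
  funext i
  rw [Function.comp, lf, lf, map_sum]
  refine Finset.sum_congr rfl fun j _ => ?_
  rw [map_mul, bc_algebraMap, hg]

end DegrDegrDescM

open DegrDegrDescM

theorem tDegrDesc : StmtDegrDesc := by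
  intro K L _ _ _ n σK σL hc r m
  refine iSup₂_le fun A B => ?_
  have h1 : fld (fun i j => algebraMap K L (A i j)) (fun i j => algebraMap K L (B i j)) (it σL m) =
      IntermediateField.adjoin L (bc n K L '' (Set.range (lf A (gen n K)) ∪ Set.range (lf B (it σK m)))) := by
    rw [fld, Set.image_union, lf_bc A (gen n K) (gen n L) (fun i => (bc_gen i).symm),
      lf_bc B (it σK m) (it σL m) (fun i => cmp_it hc m i)]
  refine le_trans ?_ (le_iSup₂ (f := fun (A : Fin (n - r) → Fin n → L) (B : Fin r → Fin n → L) =>
    (Module.finrank (fld A B (it σL m)) (RF n L) : ENNReal))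
    (fun i j => algebraMap K L (A i j)) (fun i j => algebraMap K L (B i j)))
  rw [h1, Nat.cast_le]
  exact key _

end Pool.Agent.Lib.MP_16285c_agN
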