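import Pool.Agent.Lib.MP_16285c_agN.Degr.Spec

/-! # Growth of the degrees on a subvariety -/

set_option autoImplicit false

namespace Pool.Agent.Lib.MP_16285c_agN

open Pool.Agent.Lib.MP_16285c_ag

theorem tDegrG : StmtG1 → StmtDegrP → StmtDegrG := by
  intro hG1 hP K _ _ n 𝔭 _ L _ _ _ _ _ ρ ρb hR
  obtain ⟨C, hC⟩ := hP K n 𝔭 L
  refine ⟨C, fun m => ?_⟩
  have h := hC (ρ ^ m) (ρb ^ m) (hG1.2.2 K n ρ 𝔭 L ρb hR m)
  rw [hG1.2.1 K L ρb m, Nat.cast_pow] at h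
  exact h

end Pool.Agent.Lib.MP_16285c_agN
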