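import Pool.Agent.Lib.MP_16285c_agN.Degr.Spec

/-! # The degree on a subvariety is bounded by the degree `degr` -/

set_option autoImplicit false

namespace Pool.Agent.Lib.MP_16285c_agN

open Pool.Agent.Lib.MP_16285c_ag

namespace DegrDegrPM

theorem adj_top {K : Type} [Field K] {n : ℕ} (κ : IntermediateField K (RF n K)) :
    IntermediateField.adjoin κ (Set.range (gen n K)) = ⊤ := by
  have hfr : ∀ G : Pl n K, fr G ∈ IntermediateField.adjoin κ (Set.range (gen n K)) := by
    intro G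
    induction G using MvPolynomial.induction_on with
    | C c =>
      rw [fr_C]
      exact (IntermediateField.adjoin κ (Set.range (gen n K))).algebraMap_mem (algebraMap K κ c)
    | add p q hp hq =>
      rw [fr_add]
      exact add_mem hp hq
    | mul_X p i hp =>
      rw [fr_mul]
      exact mul_mem hp (IntermediateField.subset_adjoin κ _ ⟨i, rfl⟩)
  rw [eq_top_iff]
  intro g _
  obtain ⟨N, E, _, rfl⟩ := exists_fr g
  exact div_mem (hfr N) (hfr E)

end DegrDegrPM

open DegrDegrPM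

theorem tDegrP : StmtRk1 → StmtNum → StmtNN → StmtUpF → StmtUp → StmtLow3 → StmtRel → StmtRes →
    StmtTheta → StmtTrd → StmtBk → StmtDegrP := by
  intro hRk1 hNum hNN hUpF hUp hLow3 hRel hRes hTheta hTrd hBk K _ _ n 𝔭 _ L _ _ _ _ _
  obtain ⟨α, hα, hbas⟩ := hRk1 K n 𝔭
  obtain ⟨F, hF⟩ := hRel K n 𝔭 α hbas
  let φ : Pl n K →ₐ[K] L := (IsScalarTower.toAlgHom K (CR 𝔭) L).comp (Ideal.Quotient.mkₐ K 𝔭)
  have hinj : Function.Injective (algebraMap (CR 𝔭) L) := IsFractionRing.injective _ _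
  have hφ : ∀ G, φ G = algebraMap (CR 𝔭) L (cl 𝔭 G) := fun G => rfl
  have hφ0 : ∀ G, φ G = 0 ↔ G ∈ 𝔭 := by
    intro G
    rw [hφ, map_eq_zero_iff _ hinj]
    exact Ideal.Quotient.eq_zero_iff_mem
  have hφi : AlgebraicIndependent K (fun a : α => φ (MvPolynomial.X (a : Fin n))) :=
    hbas.1.map' (f := IsScalarTower.toAlgHom K (CR 𝔭) L) hinj
  have hF' : ∀ j, j ∉ α → F j ≠ 0 ∧ φ (F j) = 0 ∧ (F j).vars ⊆ insert j α := fun j hj =>
    ⟨(hF j hj).1, (hφ0 _).mpr (hF j hj).2.1, (hF j hj).2.2⟩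
  set D : ℕ := ∑ j, (F j).totalDegree with hD
  refine ⟨(D + 1) ^ (n - rk 𝔭), fun ρ ρb hR => ?_⟩
  obtain ⟨ι, hι, hfin, hle⟩ := hRes K n 𝔭 α hbas L ρ ρb hR
  obtain ⟨θ, hθ⟩ := hTheta K n 𝔭 L ι.fieldRange hfin
  have hι' : ∀ c : IntermediateField.adjoin K (Set.range fun a : α => ρ (gen n K (a : Fin n))),
      ∃ N E : Pl n K, φ E ≠ 0 ∧ (c : RF n K) * fr E = fr N ∧ ι c * φ E = φ N := by
    intro c
    obtain ⟨N, E, hE, h1, h2⟩ := hι c
    exact ⟨N, E, fun h => hE ((hφ0 _).mp h), h1, h2⟩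
  set E : ℕ := ∑ i, (θ i).totalDegree with hE
  have hlow := hLow3 K n L φ α hφi F hF' _ ι hι' _ θ hθ D E
    (fun j _ => Finset.single_le_sum (f := fun j => (F j).totalDegree) (fun _ _ => Nat.zero_le _)
      (Finset.mem_univ j))
    (fun i => Finset.single_le_sum (f := fun i => (θ i).totalDegree) (fun _ _ => Nat.zero_le _)
      (Finset.mem_univ i))
  obtain ⟨s, A, hAI, W, hW, hV⟩ := hNN K
    (IntermediateField.adjoin K (Set.range fun a : α => ρ (gen n K (a : Fin n)))) (RF n K) n (gen n K)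
  have hUF := hUpF _ (RF n K) n s (gen n K) _ W (adj_top _) hW hV
  obtain ⟨C', hC'⟩ := hUp _ (RF n K) n s (gen n K) _ W hAI hW hV hUF
  have hgen : AlgebraicIndependent K (gen n K) := by
    have h1 : AlgebraicIndependent K (MvPolynomial.X : Fin n → Pl n K) :=
      MvPolynomial.algebraicIndependent_X (Fin n) K
    exact h1.map' (f := IsScalarTower.toAlgHom K (Pl n K) (RF n K)) fr_injective
  have hy : AlgebraicIndependent K (fun a : α => ρ (gen n K (a : Fin n))) := by
    have h1 : AlgebraicIndependent K (fun i => ρ (gen n K i)) := hgen.map' (f := ρ) ρ.injective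
    exact h1.comp (fun a : α => (a : Fin n)) Subtype.val_injective
  have hs := hTrd K n α (fun a : α => ρ (gen n K (a : Fin n))) s _ hy hAI hUF
  rw [Fintype.card_coe] at hs
  obtain rfl : s = n - α.card := by omega
  have hnum := hNum _ _ D (E + C') (n - α.card) (fun N => by
    refine (hlow N).trans ?_
    have h1 := hC' (D * N + E)
    rw [add_assoc] at h1
    exact h1)
  have hbk := hBk K n α (fun i => ρ (gen n K i)) A
  rw [← hα]
  calc (Module.finrank ρb.fieldRange L : ENNReal) ≤ (Module.finrank ι.fieldRange L : ENNReal) := by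
        exact_mod_cast hle
    _ ≤ ((_ * (D + 1) ^ (n - α.card) : ℕ) : ENNReal) := by exact_mod_cast hnum
    _ = (((D + 1) ^ (n - α.card) : ℕ) : ENNReal) * _ := by
        rw [Nat.cast_mul, mul_comm]
        rfl
    _ ≤ _ := mul_le_mul_right hbk _

end Pool.Agent.Lib.MP_16285c_agN
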