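import Pool.Agent.Lib.MP_16285c_agN.Degr.Spec

/-!
# Lowest order terms along a subvariety

Proof of `StmtLow1`.
-/

set_option autoImplicit false

namespace Pool.Agent.Lib.MP_16285c_agN

open Pool.Agent.Lib.MP_16285c_ag

namespace DegrLow1M

open MvPolynomial

variable {n : ℕ} {K : Type} [Field K] {L : Type} [Field L] [Algebra K L]

/-- The substitution `X j ↦ X`, `X i ↦ φ (X i)`. -/
noncomputable def th (φ : Pl n K →ₐ[K] L) (j : Fin n) : Pl n K →ₐ[K] Polynomial L :=
  aeval fun i => if i = j then Polynomial.X else Polynomial.C (φ (X i))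

/-- The substitution `X a ↦ φ (X a)`, `a ∈ α`, `X j ↦ φ (X j) + X j`, `j ∉ α`. -/
noncomputable def Ph (φ : Pl n K →ₐ[K] L) (α : Finset (Fin n)) :
    Pl n K →ₐ[K] MvPolynomial (Fin n) L :=
  aeval fun i => if i ∈ α then C (φ (X i)) else X i + C (φ (X i))

theorem th_C (φ : Pl n K →ₐ[K] L) (j : Fin n) (c : K) :
    th φ j (C c) = Polynomial.C (algebraMap K L c) := by
  rw [th, aeval_C]
  rfl

theorem Ph_C (φ : Pl n K →ₐ[K] L) (α : Finset (Fin n)) (c : K) :
    Ph φ α (C c) = C (algebraMap K L c) := by
  rw [Ph, aeval_C]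
  rfl

theorem phC (φ : Pl n K →ₐ[K] L) (c : K) : φ (C c) = algebraMap K L c := φ.commutes c

theorem cc_Ph (φ : Pl n K →ₐ[K] L) (α : Finset (Fin n)) (G : Pl n K) :
    constantCoeff (Ph φ α G) = φ G := by
  have h : (constantCoeff (σ := Fin n) (R := L)).comp (Ph φ α).toRingHom = φ.toRingHom := by
    refine MvPolynomial.ringHom_ext (fun c => ?_) fun i => ?_
    · show constantCoeff (Ph φ α (C c)) = φ (C c)
      rw [Ph_C, constantCoeff_C, phC]
    · show constantCoeff (Ph φ α (X i)) = φ (X i)
      rw [Ph, aeval_X]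
      split
      · rw [constantCoeff_C]
      · rw [map_add, constantCoeff_C, constantCoeff_X, zero_add]
  exact congrArg (fun r : Pl n K →+* L => r G) h

theorem ev_th (φ : Pl n K →ₐ[K] L) (j : Fin n) (G : Pl n K) :
    (th φ j G).eval (φ (X j)) = φ G := by
  have h : (Polynomial.evalRingHom (φ (X j))).comp (th φ j).toRingHom = φ.toRingHom := by
    refine MvPolynomial.ringHom_ext (fun c => ?_) fun i => ?_
    · show (th φ j (C c)).eval (φ (X j)) = φ (C c)
      rw [th_C, Polynomial.eval_C, phC]
    · show (th φ j (X i)).eval (φ (X j)) = φ (X i)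
      rw [th, aeval_X]
      split
      · next h => rw [Polynomial.eval_X, h]
      · rw [Polynomial.eval_C]
  exact congrArg (fun r : Pl n K →+* L => r G) h

theorem Ph_th (φ : Pl n K →ₐ[K] L) (α : Finset (Fin n)) (j : Fin n) (hj : j ∉ α) (G : Pl n K)
    (hG : G.vars ⊆ insert j α) :
    Ph φ α G = Polynomial.aeval (X j + C (φ (X j)) : MvPolynomial (Fin n) L) (th φ j G) := by
  have h : (Ph φ α).toRingHom G =
      ((Polynomial.aeval (X j + C (φ (X j)) : MvPolynomial (Fin n) L)).toRingHom.comp
        (th φ j).toRingHom) G := by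
    refine MvPolynomial.hom_congr_vars ?_ ?_ rfl
    · refine RingHom.ext fun c => ?_
      show Ph φ α (C c) = Polynomial.aeval (X j + C (φ (X j)) : MvPolynomial (Fin n) L) (th φ j (C c))
      rw [Ph_C, th_C, Polynomial.aeval_C]
      rfl
    · intro i hi _
      have hi' := hG hi
      show Ph φ α (X i) = Polynomial.aeval (X j + C (φ (X j)) : MvPolynomial (Fin n) L) (th φ j (X i))
      rw [Ph, th, aeval_X, aeval_X]
      by_cases hij : i = j
      · subst hij
        rw [if_neg hj, if_pos rfl, Polynomial.aeval_X]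
      · have hiα : i ∈ α := (Finset.mem_insert.1 hi').resolve_left hij
        rw [if_pos hiα, if_neg hij, Polynomial.aeval_C]
        rfl
  exact h

theorem th_inj (φ : Pl n K →ₐ[K] L) (α : Finset (Fin n))
    (hα : AlgebraicIndependent K (fun a : α => φ (MvPolynomial.X (a : Fin n)))) (j : Fin n)
    (hj : j ∉ α) (G : Pl n K) (hG : G.vars ⊆ insert j α) (h0 : th φ j G = 0) : G = 0 := by
  classical
  let u : Option α → Fin n := fun o => o.elim j fun a => (a : Fin n)
  have hu : Function.Injective u := by
    intro o o' h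
    cases o with
    | none =>
      cases o' with
      | none => rfl
      | some a => exact absurd (show (a : Fin n) ∈ α from a.2) (by
          have h1 : j = (a : Fin n) := h
          rw [← h1]; exact hj)
    | some a =>
      cases o' with
      | none => exact absurd (show (a : Fin n) ∈ α from a.2) (by
          have h1 : (a : Fin n) = j := h
          rw [h1]; exact hj)
      | some b =>
        have h1 : (a : Fin n) = (b : Fin n) := h
        rw [Subtype.ext h1]
  obtain ⟨P, hP⟩ := MvPolynomial.exists_rename_eq_of_vars_subset_range G u hu (by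
    intro i hi
    have hi' := hG hi
    rcases Finset.mem_insert.1 hi' with h | h
    · exact ⟨none, h.symm⟩
    · exact ⟨some ⟨i, h⟩, rfl⟩)
  let A : MvPolynomial α K →ₐ[K] L := aeval fun a : α => φ (MvPolynomial.X (a : Fin n))
  have hA : Function.Injective A := hα
  have hcomp : (th φ j).comp (rename u) =
      (Polynomial.mapAlgHom A).comp (optionEquivLeft K α).toAlgHom := by
    refine MvPolynomial.algHom_ext fun o => ?_
    show th φ j (rename u (X o)) = Polynomial.mapAlgHom A (optionEquivLeft K α (X o))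
    rw [rename_X, th, aeval_X]
    cases o with
    | none =>
      have h1 : u none = j := rfl
      rw [h1, if_pos rfl, optionEquivLeft_X_none]
      show Polynomial.X = Polynomial.map (A : MvPolynomial α K →+* L) Polynomial.X
      rw [Polynomial.map_X]
    | some a =>
      have h1 : u (some a) = (a : Fin n) := rfl
      have h2 : (a : Fin n) ≠ j := by
        intro h
        exact hj (h ▸ a.2)
      rw [h1, if_neg h2, optionEquivLeft_X_some]
      show Polynomial.C (φ (X (a : Fin n))) =
        Polynomial.map (A : MvPolynomial α K →+* L) (Polynomial.C (X a))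
      rw [Polynomial.map_C]
      show Polynomial.C (φ (X (a : Fin n))) = Polynomial.C (A (X a))
      rw [aeval_X]
  have h3 : Polynomial.mapAlgHom A (optionEquivLeft K α P) = 0 := by
    have h4 := congrArg (fun r : MvPolynomial (Option α) K →ₐ[K] Polynomial L => r P) hcomp
    have h5 : th φ j (rename u P) = Polynomial.mapAlgHom A (optionEquivLeft K α P) := h4
    rw [← h5, hP, h0]
  have h6 : optionEquivLeft K α P = 0 := by
    have h7 : Function.Injective (Polynomial.map (A : MvPolynomial α K →+* L)) :=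
      Polynomial.map_injective _ hA
    refine h7 ?_
    rw [Polynomial.map_zero]
    exact h3
  have h8 : P = 0 := (optionEquivLeft K α).injective (by rw [h6, map_zero])
  rw [← hP, h8, map_zero]

theorem cc_aeval (j : Fin n) (h : Polynomial L) :
    constantCoeff (Polynomial.aeval (X j : MvPolynomial (Fin n) L) h) = h.coeff 0 := by
  rw [Polynomial.aeval_def, Polynomial.hom_eval₂, constantCoeff_X]
  have h1 : (constantCoeff (σ := Fin n) (R := L)).comp (algebraMap L (MvPolynomial (Fin n) L)) =
      RingHom.id L := by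
    refine RingHom.ext fun c => ?_
    show constantCoeff (C c) = c
    rw [constantCoeff_C]
  rw [h1, Polynomial.eval₂_id, Polynomial.coeff_zero_eq_eval_zero]

theorem fac (φ : Pl n K →ₐ[K] L) (α : Finset (Fin n))
    (hα : AlgebraicIndependent K (fun a : α => φ (MvPolynomial.X (a : Fin n)))) (j : Fin n)
    (hj : j ∉ α) (G : Pl n K) (hG0 : G ≠ 0) (hφ : φ G = 0) (hG : G.vars ⊆ insert j α) :
    ∃ (e : ℕ) (H : MvPolynomial (Fin n) L), 1 ≤ e ∧ constantCoeff H ≠ 0 ∧
      Ph φ α G = X j ^ e * H := by
  have h1 : th φ j G ≠ 0 := fun h => hG0 (th_inj φ α hα j hj G hG h)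
  set f : Polynomial L := Polynomial.taylor (φ (X j)) (th φ j G) with hf
  have hf0 : f ≠ 0 := by
    intro h
    refine h1 (Polynomial.taylor_injective (φ (X j)) ?_)
    rw [map_zero]
    exact h
  have hfc : f.coeff 0 = 0 := by
    rw [hf, Polynomial.taylor_coeff_zero, ev_th, hφ]
  obtain ⟨h, hfh, hh⟩ := Polynomial.exists_eq_pow_rootMultiplicity_mul_and_not_dvd f hf0 0
  rw [Polynomial.C_0, sub_zero] at hfh hh
  have hh0 : h.coeff 0 ≠ 0 := fun h2 => hh (Polynomial.X_dvd_iff.2 h2)
  refine ⟨f.rootMultiplicity 0, Polynomial.aeval (X j : MvPolynomial (Fin n) L) h, ?_, ?_, ?_⟩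
  · by_contra hlt
    have h3 : f.rootMultiplicity 0 = 0 := by omega
    rw [h3, pow_zero, one_mul] at hfh
    exact hh0 (by rw [← hfh]; exact hfc)
  · rw [cc_aeval]
    exact hh0
  · rw [Ph_th φ α j hj G hG]
    have h4 : Polynomial.aeval (X j : MvPolynomial (Fin n) L) f =
        Polynomial.aeval (X j + C (φ (X j)) : MvPolynomial (Fin n) L) (th φ j G) := by
      rw [hf, Polynomial.taylor_apply, Polynomial.aeval_comp, map_add, Polynomial.aeval_X,
        Polynomial.aeval_C]
      rfl
    rw [← h4]
    conv_lhs => rw [hfh]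
    rw [map_mul, map_pow, Polynomial.aeval_X]

theorem prodX (m : Fin n → ℕ) :
    (∏ j, (X j : MvPolynomial (Fin n) L) ^ m j) =
      monomial (Finsupp.equivFunOnFinite.symm m) 1 := by
  rw [monomial_eq, C_1, one_mul, Finsupp.prod_fintype _ _ (fun i => pow_zero _)]
  rfl

end DegrLow1M

open DegrLow1M MvPolynomial in
theorem tLow1 : StmtLow1 := by
  classical
  intro K _ n L _ _ φ α hα F hF S Q hS hsum b hb hmin
  have hex : ∀ j : Fin n, ∃ (e : ℕ) (H : MvPolynomial (Fin n) L), 1 ≤ e ∧ constantCoeff H ≠ 0 ∧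
      (j ∉ α → Ph φ α (F j) = X j ^ e * H) := by
    intro j
    by_cases hj : j ∈ α
    · exact ⟨1, 1, le_rfl, by rw [map_one]; exact one_ne_zero, fun h => absurd hj h⟩
    · obtain ⟨e, H, h1, h2, h3⟩ := fac φ α hα j hj (F j) (hF j hj).1 (hF j hj).2.1 (hF j hj).2.2
      exact ⟨e, H, h1, h2, fun _ => h3⟩
  choose e H he hH hFe using hex
  have hprod : ∀ b' ∈ S, Ph φ α (∏ j, F j ^ b' j) =
      monomial (Finsupp.equivFunOnFinite.symm fun j => e j * b' j) 1 * ∏ j, H j ^ b' j := by
    intro b' hb'
    rw [← prodX, ← Finset.prod_mul_distrib, map_prod]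
    refine Finset.prod_congr rfl fun j _ => ?_
    by_cases hj : j ∈ α
    · rw [hS b' hb' j hj, pow_zero, map_one, mul_zero, pow_zero, pow_zero, one_mul]
    · rw [map_pow, hFe j hj, mul_pow, ← pow_mul]
  have h1 : ∑ b' ∈ S, monomial (Finsupp.equivFunOnFinite.symm fun j => e j * b' j) 1 *
      ((∏ j, H j ^ b' j) * Ph φ α (Q b')) = 0 := by
    have h2 := congrArg (Ph φ α) hsum
    rw [map_sum, map_zero] at h2
    rw [← h2]
    refine Finset.sum_congr rfl fun b' hb' => ?_
    rw [map_mul, hprod b' hb', mul_assoc]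
  have h3 := congrArg (coeff (Finsupp.equivFunOnFinite.symm fun j => e j * b j)) h1
  rw [coeff_sum, coeff_zero, Finset.sum_eq_single b] at h3
  · rw [coeff_monomial_mul', if_pos le_rfl, one_mul, tsub_self, ← constantCoeff_eq, map_mul,
      cc_Ph, map_prod] at h3
    refine (mul_eq_zero.1 h3).resolve_left ?_
    refine Finset.prod_ne_zero_iff.2 fun j _ => ?_
    rw [map_pow]
    exact pow_ne_zero _ (hH j)
  · intro b' hb' hne
    rw [coeff_monomial_mul', if_neg]
    intro hle
    refine hne (hmin b' hb' fun j => ?_)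
    have h4 := hle j
    have h5 : e j * b' j ≤ e j * b j := h4
    exact Nat.le_of_mul_le_mul_left h5 (he j)
  · intro h
    exact absurd hb h

end Pool.Agent.Lib.MP_16285c_agN
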