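import Pool.Agent.Lib.MP_16285c_agN.Degr.Spec

/-!
# Proof of `StmtLow2`
-/

set_option autoImplicit false

namespace Pool.Agent.Lib.MP_16285c_agN

theorem tLow2 (h1 : StmtLow1) : StmtLow2 := by
  classical
  intro K _ n L _ _ φ α hα F hF κ ι hκ δ θ hθ
  rw [linearIndependent_iff']
  intro s₀ g hg t₀ ht₀
  by_contra hne
  have hinj : Function.Injective (fun G : Pl n K => fr G) :=
    IsFractionRing.injective (MvPolynomial (Fin n) K) (FractionRing (MvPolynomial (Fin n) K))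
  set s := s₀.filter (fun t => g t ≠ 0) with hs
  have hsum : ∑ t ∈ s, g t • fr ((∏ j, F j ^ (t.1 : Fin n → ℕ) j) * θ t.2) = 0 := by
    rw [← hg, hs]
    apply Finset.sum_filter_of_ne
    intro t _ hne h0
    exact hne (by rw [h0, zero_smul])
  have ht₀s : t₀ ∈ s := Finset.mem_filter.mpr ⟨ht₀, hne⟩
  choose N E hE hN hι using fun t => hκ (g t)
  set E₀ : Pl n K := ∏ t ∈ s, E t with hE₀d
  have hE₀ : φ E₀ ≠ 0 := by
    rw [hE₀d, map_prod]
    exact Finset.prod_ne_zero_iff.mpr fun t _ => hE t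
  obtain ⟨P, hP, hPι⟩ : ∃ P : ({b : Fin n → ℕ // ∀ a ∈ α, b a = 0} × Fin δ) → Pl n K,
      (∀ t ∈ s, (g t : RF n K) * fr E₀ = fr (P t)) ∧ ∀ t ∈ s, ι (g t) * φ E₀ = φ (P t) := by
    refine ⟨fun t => N t * ∏ t' ∈ s.erase t, E t', ?_, ?_⟩
    · intro t ht
      rw [hE₀d, ← Finset.mul_prod_erase s E ht, fr, map_mul, ← mul_assoc]
      change (g t : RF n K) * fr (E t) * fr (∏ t' ∈ s.erase t, E t') = _
      rw [hN t]
      exact (map_mul _ _ _).symm
    · intro t ht
      rw [hE₀d, ← Finset.mul_prod_erase s E ht, map_mul, ← mul_assoc, hι t, map_mul]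
  have hpoly : ∑ t ∈ s, (∏ j, F j ^ (t.1 : Fin n → ℕ) j) * (P t * θ t.2) = 0 := by
    apply hinj
    change fr (∑ t ∈ s, (∏ j, F j ^ (t.1 : Fin n → ℕ) j) * (P t * θ t.2)) = fr 0
    rw [fr, map_sum]
    have h2 : ∀ t ∈ s, algebraMap (MvPolynomial (Fin n) K) (FractionRing (MvPolynomial (Fin n) K))
        ((∏ j, F j ^ (t.1 : Fin n → ℕ) j) * (P t * θ t.2))
        = fr E₀ * (g t • fr ((∏ j, F j ^ (t.1 : Fin n → ℕ) j) * θ t.2)) := by
      intro t ht
      have h3 : g t • fr ((∏ j, F j ^ (t.1 : Fin n → ℕ) j) * θ t.2)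
          = (g t : RF n K) * fr ((∏ j, F j ^ (t.1 : Fin n → ℕ) j) * θ t.2) := rfl
      have h9 : fr E₀ * ((g t : RF n K) * fr ((∏ j, F j ^ (t.1 : Fin n → ℕ) j) * θ t.2))
          = ((g t : RF n K) * fr E₀) * fr ((∏ j, F j ^ (t.1 : Fin n → ℕ) j) * θ t.2) := by ring
      rw [h3, h9, hP t ht]
      simp only [fr, map_mul]
      ring
    rw [Finset.sum_congr rfl h2, ← Finset.mul_sum, hsum, mul_zero, fr, map_zero]
  set S₀ := s.image Prod.fst with hS₀
  have hS₀m : ∀ t ∈ s, t.1 ∈ S₀ := fun t ht => Finset.mem_image_of_mem _ ht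
  obtain ⟨b, hbS, hbmin⟩ := S₀.exists_minimal ⟨_, hS₀m t₀ ht₀s⟩
  obtain ⟨t₁, ht₁, rfl⟩ := Finset.mem_image.mp hbS
  let p : {b : Fin n → ℕ // ∀ a ∈ α, b a = 0} → Fin δ → Pl n K :=
    fun b i => if (b, i) ∈ s then P (b, i) else 0
  let Q : (Fin n → ℕ) → Pl n K :=
    fun b => if h : ∀ a ∈ α, b a = 0 then ∑ i, p ⟨b, h⟩ i * θ i else 0
  have hQ : ∀ b : {b : Fin n → ℕ // ∀ a ∈ α, b a = 0}, Q b.1 = ∑ i, p b i * θ i := by
    intro b
    simp only [Q, dif_pos b.2]
  have h4 := h1 K n L φ α hα F hF (S₀.map (Function.Embedding.subtype _)) Q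
    (by
      intro b hb a ha
      obtain ⟨b', -, rfl⟩ := Finset.mem_map.mp hb
      exact b'.2 a ha)
    (by
      have h5 : s ⊆ S₀ ×ˢ (Finset.univ : Finset (Fin δ)) :=
        fun t ht => Finset.mem_product.mpr ⟨hS₀m t ht, Finset.mem_univ _⟩
      rw [Finset.sum_map]
      calc ∑ b ∈ S₀, (∏ j, F j ^ (b : Fin n → ℕ) j) * Q b.1
          = ∑ b ∈ S₀, ∑ i, (∏ j, F j ^ (b : Fin n → ℕ) j) * (p b i * θ i) := by
            apply Finset.sum_congr rfl
            intro b _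
            rw [hQ, Finset.mul_sum]
        _ = ∑ t ∈ S₀ ×ˢ (Finset.univ : Finset (Fin δ)),
              (∏ j, F j ^ (t.1 : Fin n → ℕ) j) * (p t.1 t.2 * θ t.2) := by
            rw [Finset.sum_product]
        _ = ∑ t ∈ s, (∏ j, F j ^ (t.1 : Fin n → ℕ) j) * (p t.1 t.2 * θ t.2) := by
            symm
            apply Finset.sum_subset h5
            intro t _ ht
            have : p t.1 t.2 = 0 := by
              simp only [p]
              rw [if_neg]
              exact ht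
            rw [this, zero_mul, mul_zero]
        _ = ∑ t ∈ s, (∏ j, F j ^ (t.1 : Fin n → ℕ) j) * (P t * θ t.2) := by
            apply Finset.sum_congr rfl
            intro t ht
            have : p t.1 t.2 = P t := by
              simp only [p]
              rw [if_pos]
              exact ht
            rw [this]
        _ = 0 := hpoly)
    t₁.1.1 (Finset.mem_map.mpr ⟨t₁.1, hbS, rfl⟩)
    (by
      intro b' hb' hle
      obtain ⟨b'', hb'', rfl⟩ := Finset.mem_map.mp hb'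
      have h6 : b'' ≤ t₁.1 := hle
      have h7 : t₁.1 ≤ b'' := hbmin hb'' h6
      exact congrArg Subtype.val (le_antisymm h6 h7))
  rw [hQ, map_sum] at h4
  let h : Fin δ → ι.fieldRange :=
    fun i => if (t₁.1, i) ∈ s then ⟨ι (g (t₁.1, i)), ⟨g (t₁.1, i), rfl⟩⟩ else 0
  have h8 : ∀ i, φ (p t₁.1 i * θ i) = φ E₀ * (h i • φ (θ i)) := by
    intro i
    have h9 : φ (p t₁.1 i) = (h i : L) * φ E₀ := by
      by_cases hi : (t₁.1, i) ∈ s
      · simp only [p, h, if_pos hi]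
        exact (hPι _ hi).symm
      · simp only [p, h, if_neg hi]
        rw [map_zero, ZeroMemClass.coe_zero, zero_mul]
    have h10 : h i • φ (θ i) = (h i : L) * φ (θ i) := rfl
    rw [map_mul, h9, h10]
    ring
  rw [Finset.sum_congr rfl fun i _ => h8 i, ← Finset.mul_sum] at h4
  have h11 : ∑ i, h i • φ (θ i) = 0 := (mul_eq_zero.mp h4).resolve_left hE₀
  have h12 := Fintype.linearIndependent_iff.mp hθ h h11 t₁.2
  have h13 : (t₁.1, t₁.2) ∈ s := ht₁
  simp only [h, if_pos h13] at h12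
  have h14 : ι (g t₁) = 0 := congrArg Subtype.val h12
  have h15 : g t₁ = 0 := (map_eq_zero_iff ι ι.injective).mp h14
  exact (Finset.mem_filter.mp ht₁).2 h15

end Pool.Agent.Lib.MP_16285c_agN
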