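import Pool.Agent.Lib.MP_16285c_agN.Degr.Spec

/-!
# Proof of `StmtLow3`
-/

set_option autoImplicit false

namespace Pool.Agent.Lib.MP_16285c_agN

namespace DegrLow3M

theorem mem_Vd {n : ℕ} {K : Type} [Field K] (κ : IntermediateField K (RF n K)) (G : Pl n K) (a : ℕ)
    (h : G.totalDegree ≤ a) : fr G ∈ Vd κ (gen n K) a := by
  unfold Vd
  refine ⟨MvPolynomial.map (algebraMap K κ) G, ?_, ?_⟩
  · rw [SetLike.mem_coe, MvPolynomial.mem_restrictTotalDegree]
    refine le_trans ?_ h
    unfold MvPolynomial.totalDegree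
    exact Finset.sup_mono (MvPolynomial.support_map_subset _ _)
  · rw [AlgHom.toLinearMap_apply, MvPolynomial.aeval_map_algebraMap]
    have h1 : (MvPolynomial.aeval (gen n K) : Pl n K →ₐ[K] RF n K)
        = IsScalarTower.toAlgHom K (Pl n K) (RF n K) := by
      apply MvPolynomial.algHom_ext
      intro i
      rw [MvPolynomial.aeval_X]
      rfl
    rw [h1]
    rfl

/-- The exponents of the counting problem. -/
abbrev Ex (k N : ℕ) : Type := {b : Fin k → ℕ // ∑ i, b i ≤ N}

instance finEx (k N : ℕ) : Finite (Ex k N) := by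
  have h : {b : Fin k → ℕ | ∑ i, b i ≤ N}.Finite := by
    apply (Set.finite_Iic (fun _ : Fin k => N)).subset
    intro b hb i
    exact (Finset.single_le_sum (f := b) (fun _ _ => Nat.zero_le _) (Finset.mem_univ i)).trans hb
  exact h

/-- Extension by zero. -/
noncomputable def ext0 {n k : ℕ} (e : Fin k ↪ Fin n) (b : Fin k → ℕ) : Fin n → ℕ :=
  Function.extend e b 0

theorem ext0_apply {n k : ℕ} (e : Fin k ↪ Fin n) (b : Fin k → ℕ) (i : Fin k) :
    ext0 e b (e i) = b i := e.injective.extend_apply _ _ _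

theorem ext0_zero {n k : ℕ} (e : Fin k ↪ Fin n) (b : Fin k → ℕ) (j : Fin n)
    (h : ∀ i, e i ≠ j) : ext0 e b j = 0 := by
  unfold ext0
  rw [Function.extend_apply']
  · rfl
  · rintro ⟨i, hi⟩
    exact h i hi

theorem sum_ext0 {n k : ℕ} (e : Fin k ↪ Fin n) (b : Fin k → ℕ) :
    ∑ j, ext0 e b j = ∑ i, b i := by
  rw [← Finset.sum_subset (Finset.subset_univ (Finset.univ.map e)), Finset.sum_map]
  · apply Finset.sum_congr rfl
    intro i _
    exact ext0_apply e b i
  · intro j _ hj
    apply ext0_zero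
    intro i hi
    exact hj (Finset.mem_map.mpr ⟨i, Finset.mem_univ _, hi⟩)

theorem deg_le {n : ℕ} {K : Type} [Field K] (α : Finset (Fin n)) (F : Fin n → Pl n K) (D N : ℕ)
    (hD : ∀ j, j ∉ α → (F j).totalDegree ≤ D) (b : Fin n → ℕ) (hb : ∀ a ∈ α, b a = 0)
    (hN : ∑ j, b j ≤ N) : (∏ j, F j ^ b j).totalDegree ≤ D * N := by
  refine (MvPolynomial.totalDegree_finset_prod _ _).trans ?_
  calc ∑ j, (F j ^ b j).totalDegree ≤ ∑ j, D * b j := by
        apply Finset.sum_le_sum
        intro j _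
        by_cases hj : j ∈ α
        · rw [hb j hj, pow_zero, MvPolynomial.totalDegree_one]
          exact Nat.zero_le _
        · refine (MvPolynomial.totalDegree_pow _ _).trans ?_
          rw [mul_comm]
          exact Nat.mul_le_mul_right _ (hD j hj)
    _ = D * ∑ j, b j := by rw [Finset.mul_sum]
    _ ≤ D * N := Nat.mul_le_mul_left _ hN

end DegrLow3M

open DegrLow3M in
theorem tLow3 (hV : StmtVd) (h2 : StmtLow2) : StmtLow3 := by
  classical
  intro K _ n L _ _ φ α hα F hF κ ι hκ δ θ hθ D E hD hE N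
  have hlin := h2 K n L φ α hα F hF κ ι hκ δ θ hθ
  have hcard : αᶜ.card = n - α.card := by
    rw [Finset.card_compl, Fintype.card_fin]
  let e : Fin (n - α.card) ↪ Fin n := (αᶜ.orderEmbOfFin hcard).toEmbedding
  have he : ∀ i, e i ∉ α := by
    intro i
    have := Finset.orderEmbOfFin_mem αᶜ hcard i
    exact Finset.mem_compl.mp this
  let w : Ex (n - α.card) N × Fin δ → {b : Fin n → ℕ // ∀ a ∈ α, b a = 0} × Fin δ :=
    fun t => (⟨ext0 e t.1.1, fun a ha => ext0_zero e _ a fun i hi => he i (hi ▸ ha)⟩, t.2)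
  have hw : Function.Injective w := by
    rintro ⟨⟨b, hb⟩, i⟩ ⟨⟨b', hb'⟩, i'⟩ h
    have h3 : i = i' := congrArg Prod.snd h
    have h4 : ext0 e b = ext0 e b' := congrArg (fun t => (t.1 : Fin n → ℕ)) h
    have h5 : b = b' := by
      funext l
      rw [← ext0_apply e b l, h4, ext0_apply]
    subst h3 h5
    rfl
  have hlin2 := hlin.comp w hw
  have hmem : ∀ t : Ex (n - α.card) N × Fin δ,
      fr ((∏ j, F j ^ ((w t).1 : Fin n → ℕ) j) * θ (w t).2) ∈ Vd κ (gen n K) (D * N + E) := by
    intro t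
    apply mem_Vd
    refine (MvPolynomial.totalDegree_mul _ _).trans (Nat.add_le_add ?_ (hE _))
    apply deg_le α F D N hD _ (w t).1.2
    change ∑ j, ext0 e t.1.1 j ≤ N
    rw [sum_ext0]
    exact t.1.2
  let v : Ex (n - α.card) N × Fin δ → Vd κ (gen n K) (D * N + E) := fun t => ⟨_, hmem t⟩
  have hv : LinearIndependent κ v := by
    apply LinearIndependent.of_comp (Vd κ (gen n K) (D * N + E)).subtype
    exact hlin2
  haveI : Module.Finite κ (Vd κ (gen n K) (D * N + E)) := hV.1 κ (RF n K) n (gen n K) (D * N + E)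
  haveI : Fintype (Ex (n - α.card) N) := Fintype.ofFinite _
  have h6 := hv.fintype_card_le_finrank
  rw [Fintype.card_prod, Fintype.card_fin, mul_comm] at h6
  have h7 : cnt (n - α.card) N = Fintype.card (Ex (n - α.card) N) := Nat.card_eq_fintype_card
  rw [h7]
  exact h6

end Pool.Agent.Lib.MP_16285c_agN
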