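import Pool.Agent.Lib.MP_16285c_agN.Degr.Spec

/-! # No subvariety of full degree -/

set_option autoImplicit false

namespace Pool.Agent.Lib.MP_16285c_agN

open Pool.Agent.Lib.MP_16285c_ag

theorem tNFD : StmtDegrG → StmtDegrDesc → StmtReal2 → StmtNFD := by
  intro hG hD hR k _ _ n σ hσ M hM K _ _ _ σK hc htp 𝔭 _ hpres h1 h2 L _ _ _ _ _ ρb hRst
  by_contra hcon
  push Not at hcon
  obtain ⟨C, hC⟩ := hG K n 𝔭 L (σK ^ M) ρb hRst
  obtain ⟨m, hm⟩ := hR (fun m => degr (rk 𝔭) (it σ m)) (tp σ) (hσ (rk 𝔭) h1 h2) M C hM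
  have h3 : it (σK ^ M) m = it σK (M * m) := by
    funext i
    rw [it, it, pow_mul]
  have h4 := hC m
  rw [h3] at h4
  have h5 : (tp σ : ENNReal) ^ (M * m) ≤ (Module.finrank ρb.fieldRange L : ENNReal) ^ m := by
    rw [pow_mul]
    refine pow_le_pow_left₀ (zero_le) ?_ m
    rw [← htp]
    exact_mod_cast hcon
  have h6 : (C : ENNReal) * degr (rk 𝔭) (it σK (M * m)) ≤ C * degr (rk 𝔭) (it σ (M * m)) :=
    mul_le_mul_right (hD K k n σK σ hc (rk 𝔭) (M * m)) _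
  exact absurd (h5.trans (h4.trans h6)) (not_le.mpr hm)

end Pool.Agent.Lib.MP_16285c_agN
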