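import Pool.Agent.Lib.MP_16285c_agN.Degr.Spec

/-!
# `StmtNum`
-/

set_option autoImplicit false

namespace Pool.Agent.Lib.MP_16285c_agN

theorem tNum : StmtCnt → StmtNum := by
  intro hC δ e D E s h
  obtain ⟨h1, -, h3⟩ := hC
  have h4 := h E
  have h5 : D * E + E = (D + 1) * E := by ring
  rw [h5] at h4
  have h6 : e * cnt s ((D + 1) * E) ≤ e * ((D + 1) ^ s * cnt s E) :=
    Nat.mul_le_mul_left _ (h3 s D E)
  have h7 : δ * cnt s E ≤ (e * (D + 1) ^ s) * cnt s E := by
    rw [mul_assoc]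
    exact h4.trans h6
  exact Nat.le_of_mul_le_mul_right h7 (h1 s E)

end Pool.Agent.Lib.MP_16285c_agN
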