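import Pool.Agent.Lib.MP_16285c_agN.Degr.Spec

/-!
# `StmtReal2`: the growth estimate for the higher degrees
-/

set_option autoImplicit false

namespace Pool.Agent.Lib.MP_16285c_agN

open Filter Topology in
theorem tReal2 : StmtReal2 := by
  intro d τ hlim M C hM
  obtain ⟨c, hc1, hc2⟩ := ENNReal.lt_iff_exists_nnreal_btwn.1 hlim
  have hcτ : c < (τ : NNReal) := by
    have : (c : ENNReal) < ((τ : NNReal) : ENNReal) := by
      rw [ENNReal.coe_natCast]
      exact hc2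
    exact_mod_cast this
  have hτ : (0 : NNReal) < (τ : NNReal) := zero_le.trans_lt hcτ
  have hev : ∀ᶠ m : ℕ in atTop, d m ^ ((m : ℝ)⁻¹) < (c : ENNReal) :=
    eventually_lt_of_limsup_lt hc1
  have hq : c / (τ : NNReal) < 1 := (div_lt_one hτ).2 hcτ
  have ht : Tendsto (fun k : ℕ => (C : NNReal) * (c / (τ : NNReal)) ^ k) atTop (𝓝 ((C : NNReal) * 0)) :=
    (tendsto_pow_atTop_nhds_zero_of_lt_one zero_le hq).const_mul _
  rw [mul_zero] at ht
  have hev2 : ∀ᶠ k : ℕ in atTop, (C : NNReal) * (c / (τ : NNReal)) ^ k < 1 :=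
    ht.eventually_lt_const one_pos
  have hMm : Tendsto (fun m : ℕ => M * m) atTop atTop := tendsto_id.const_mul_atTop' hM
  obtain ⟨m, ⟨h1, h2⟩, h3⟩ :=
    (((hMm.eventually hev).and (hMm.eventually hev2)).and (eventually_ge_atTop 1)).exists
  refine ⟨m, ?_⟩
  have hk : M * m ≠ 0 := (Nat.mul_pos hM h3).ne'
  have hd : d (M * m) ≤ (c : ENNReal) ^ (M * m) := by
    have h4 : (d (M * m) ^ (((M * m : ℕ) : ℝ)⁻¹)) ^ (M * m) ≤ (c : ENNReal) ^ (M * m) :=
      pow_le_pow_left' h1.le _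
    rwa [← ENNReal.rpow_natCast, ← ENNReal.rpow_mul,
      inv_mul_cancel₀ (by exact_mod_cast hk), ENNReal.rpow_one] at h4
  have h5 : (C : NNReal) * c ^ (M * m) < (τ : NNReal) ^ (M * m) := by
    have h6 : (0 : NNReal) < (τ : NNReal) ^ (M * m) := pow_pos hτ _
    rw [div_pow, ← mul_div_assoc, div_lt_one h6] at h2
    exact h2
  calc (C : ENNReal) * d (M * m) ≤ (C : ENNReal) * (c : ENNReal) ^ (M * m) := by gcongr
    _ = (((C : NNReal) * c ^ (M * m) : NNReal) : ENNReal) := by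
        rw [ENNReal.coe_mul, ENNReal.coe_pow, ENNReal.coe_natCast]
    _ < (((τ : NNReal) ^ (M * m) : NNReal) : ENNReal) := by exact_mod_cast h5
    _ = (τ : ENNReal) ^ (M * m) := by rw [ENNReal.coe_pow, ENNReal.coe_natCast]

end Pool.Agent.Lib.MP_16285c_agN
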