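import Pool.Agent.Lib.MP_16285c_agN.Degr.Spec

/-!
# Relations between the classes of the variables
-/

set_option autoImplicit false

namespace Pool.Agent.Lib.MP_16285c_agN

namespace DegrRelM

/-- The class of a renamed polynomial. -/
theorem mk_rename {n : ℕ} {K : Type} [Field K] (𝔭 : Ideal (Pl n K)) (β : Finset (Fin n))
    (p : MvPolynomial β K) :
    cl 𝔭 (MvPolynomial.rename (fun a : β => (a : Fin n)) p) =
      MvPolynomial.aeval (fun a : β => (cl 𝔭 (MvPolynomial.X (a : Fin n)) : CR 𝔭)) p := by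
  have h : (Ideal.Quotient.mkₐ K 𝔭).comp (MvPolynomial.rename (fun a : β => (a : Fin n))) =
      MvPolynomial.aeval (fun a : β => (cl 𝔭 (MvPolynomial.X (a : Fin n)) : CR 𝔭)) := by
    apply MvPolynomial.algHom_ext
    intro i
    simp
  have h2 := DFunLike.congr_fun h p
  simpa using h2

theorem one {n : ℕ} {K : Type} [Field K] (𝔭 : Ideal (Pl n K)) [𝔭.IsPrime] (α : Finset (Fin n))
    (hα : IsTranscendenceBasis K
      (fun a : α => (cl 𝔭 (MvPolynomial.X (a : Fin n)) : CR 𝔭))) (j : Fin n) (hj : j ∉ α) :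
    ∃ F : Pl n K, F ≠ 0 ∧ F ∈ 𝔭 ∧ F.vars ⊆ insert j α := by
  set β : Finset (Fin n) := insert j α with hβ
  set y : β → CR 𝔭 := fun a : β => (cl 𝔭 (MvPolynomial.X (a : Fin n)) : CR 𝔭) with hy
  have hnot : ¬ AlgebraicIndependent K y := by
    intro hind
    have hsub : Set.range (fun a : α => (cl 𝔭 (MvPolynomial.X (a : Fin n)) : CR 𝔭)) ⊆
        Set.range y := by
      rintro _ ⟨a, rfl⟩
      exact ⟨⟨a, Finset.mem_insert_of_mem a.2⟩, rfl⟩
    have heq := hα.2 (Set.range y) (AlgebraicIndependent.coe_range hind) hsub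
    have hmem : y ⟨j, Finset.mem_insert_self j α⟩ ∈
        Set.range (fun a : α => (cl 𝔭 (MvPolynomial.X (a : Fin n)) : CR 𝔭)) := by
      have h0 : y ⟨j, Finset.mem_insert_self j α⟩ ∈ Set.range y := ⟨_, rfl⟩
      rwa [← heq] at h0
    obtain ⟨a, ha⟩ := hmem
    have hinj := hind.injective
    have h1 : y ⟨(a : Fin n), Finset.mem_insert_of_mem a.2⟩ =
        y ⟨j, Finset.mem_insert_self j α⟩ := ha
    have h2 := hinj h1
    have h3 : (a : Fin n) = j := congrArg Subtype.val h2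
    exact hj (h3 ▸ a.2)
  rw [algebraicIndependent_iff] at hnot
  push Not at hnot
  obtain ⟨p, hp0, hpne⟩ := hnot
  refine ⟨MvPolynomial.rename (fun a : β => (a : Fin n)) p, ?_, ?_, ?_⟩
  · intro h0
    apply hpne
    have h1 : MvPolynomial.rename (fun a : β => (a : Fin n)) p =
        MvPolynomial.rename (fun a : β => (a : Fin n)) 0 := by rw [h0, map_zero]
    exact MvPolynomial.rename_injective _ Subtype.val_injective h1
  · rw [← Ideal.Quotient.eq_zero_iff_mem]
    have h1 := mk_rename 𝔭 β p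
    rw [hp0] at h1
    exact h1
  · intro i hi
    have h1 := MvPolynomial.vars_rename (fun a : β => (a : Fin n)) p hi
    rw [Finset.mem_image] at h1
    obtain ⟨a, _, rfl⟩ := h1
    exact a.2

end DegrRelM

theorem tRel : StmtRel := by
  intro K _ n 𝔭 _ α hα
  have h : ∀ j : Fin n, ∃ F : Pl n K, j ∉ α → F ≠ 0 ∧ F ∈ 𝔭 ∧ F.vars ⊆ insert j α := by
    intro j
    by_cases hj : j ∈ α
    · exact ⟨0, fun h => absurd hj h⟩
    · obtain ⟨F, hF⟩ := DegrRelM.one 𝔭 α hα j hj
      exact ⟨F, fun _ => hF⟩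
  choose F hF using h
  exact ⟨F, hF⟩

end Pool.Agent.Lib.MP_16285c_agN
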