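import Pool.Agent.Lib.MP_16285c_agN.Degr.Spec

/-!
# (Res) The residue map of a subfield of the function field
-/

set_option autoImplicit false

namespace Pool.Agent.Lib.MP_16285c_agN

open Pool.Agent.Lib.MP_16285c_ag

namespace DegrResM

/-- A finitely generated field is finite over a subfield over which it is algebraic. -/
theorem fin_of_alg (K L : Type) [Field K] [Field L] [Algebra K L] [Algebra.EssFiniteType K L]
    (A : IntermediateField K L) (hA : Algebra.IsAlgebraic A L) : Module.Finite A L := by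
  have h6 : Algebra.EssFiniteType A L := Algebra.EssFiniteType.of_comp K A L
  obtain ⟨t, ht⟩ := IntermediateField.fg_top A L
  have h7 : FiniteDimensional A (IntermediateField.adjoin A (t : Set L)) :=
    IntermediateField.finiteDimensional_adjoin fun x _ => Algebra.IsIntegral.isIntegral x
  rw [ht] at h7
  exact Module.Finite.equiv (IntermediateField.topEquiv (F := A) (E := L)).toLinearEquiv

theorem finrank_map (K L : Type) [Field K] [Field L] [Algebra K L] (A : IntermediateField K L)
    (ρ : L →ₐ[K] L) :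
    Module.finrank (A.map ρ) L = Module.finrank A L * Module.finrank ρ.fieldRange L := by
  have hB : ρ.fieldRange = (⊤ : IntermediateField K L).map ρ := AlgHom.fieldRange_eq_map ρ
  have hle : A.map ρ ≤ (⊤ : IntermediateField K L).map ρ := IntermediateField.map_mono ρ le_top
  have h1 := IntermediateField.relfinrank_mul_finrank_top hle
  have h2 : IntermediateField.relfinrank (A.map ρ) ((⊤ : IntermediateField K L).map ρ) =
      Module.finrank A L := by
    rw [IntermediateField.relfinrank_map_map, IntermediateField.relfinrank_top_right]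
  rw [← h1, h2, hB]

theorem ev_div {ι F E : Type} [Field F] [Field E] [Algebra F E] {x : ι → E}
    (hx : AlgebraicIndependent F x) (P Q : MvPolynomial ι F) :
    ((hx.aevalEquivField (algebraMap (MvPolynomial ι F) (FractionRing (MvPolynomial ι F)) P /
      algebraMap (MvPolynomial ι F) (FractionRing (MvPolynomial ι F)) Q) :
        IntermediateField.adjoin F (Set.range x)) : E) =
      MvPolynomial.aeval x P / MvPolynomial.aeval x Q := by
  rw [map_div₀, IntermediateField.coe_div, hx.aevalEquivField_algebraMap_apply_coe,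
    hx.aevalEquivField_algebraMap_apply_coe]

section

variable {n : ℕ} {K : Type} [Field K]

theorem algInd_gen : AlgebraicIndependent K (gen n K) := by
  have h := MvPolynomial.algebraicIndependent_X (Fin n) K
  have h2 := h.map' (f := IsScalarTower.toAlgHom K (MvPolynomial (Fin n) K) (RF n K))
    (IsFractionRing.injective (MvPolynomial (Fin n) K) (RF n K))
  exact h2

variable {𝔭 : Ideal (Pl n K)} [𝔭.IsPrime] {L : Type} [Field L] [Algebra (CR 𝔭) L]

theorem one_notMem : (1 : Pl n K) ∉ 𝔭 := fun h => (Ideal.IsPrime.ne_top inferInstance)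
  ((Ideal.eq_top_iff_one 𝔭).2 h)

theorem rsd_fr (G : Pl n K) : Rsd 𝔭 L (fr G) (algebraMap (CR 𝔭) L (cl 𝔭 G)) := by
  refine ⟨G, 1, one_notMem, ?_, ?_⟩
  · simp only [fr, map_one, mul_one]
  · simp only [cl, map_one, mul_one]

theorem rsd_const [Algebra K L] [IsScalarTower K (CR 𝔭) L] (c : K) :
    Rsd 𝔭 L (algebraMap K (RF n K) c) (algebraMap K L c) := by
  have h := rsd_fr (𝔭 := 𝔭) (L := L) (MvPolynomial.C c : Pl n K)
  have h1 : fr (MvPolynomial.C c : Pl n K) = algebraMap K (RF n K) c := by
    rw [IsScalarTower.algebraMap_apply K (MvPolynomial (Fin n) K) (RF n K)]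
    rfl
  have h2 : algebraMap (CR 𝔭) L (cl 𝔭 (MvPolynomial.C c)) = algebraMap K L c := by
    rw [IsScalarTower.algebraMap_apply K (CR 𝔭) L]
    rfl
  rwa [h1, h2] at h

theorem rsd_add {g g' : RF n K} {u u' : L} (h : Rsd 𝔭 L g u) (h' : Rsd 𝔭 L g' u') :
    Rsd 𝔭 L (g + g') (u + u') := by
  obtain ⟨N, E, hE, h1, h2⟩ := h
  obtain ⟨N', E', hE', h1', h2'⟩ := h'
  refine ⟨N * E' + N' * E, E * E', ?_, ?_, ?_⟩
  · intro h
    rcases (Ideal.IsPrime.mem_or_mem inferInstance h) with h | h
    · exact hE h
    · exact hE' h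
  · simp only [fr, map_add, map_mul] at h1 h1' ⊢
    rw [← h1, ← h1']
    ring
  · simp only [cl, map_add, map_mul] at h2 h2' ⊢
    rw [← h2, ← h2']
    ring

theorem rsd_mul {g g' : RF n K} {u u' : L} (h : Rsd 𝔭 L g u) (h' : Rsd 𝔭 L g' u') :
    Rsd 𝔭 L (g * g') (u * u') := by
  obtain ⟨N, E, hE, h1, h2⟩ := h
  obtain ⟨N', E', hE', h1', h2'⟩ := h'
  refine ⟨N * N', E * E', ?_, ?_, ?_⟩
  · intro h
    rcases (Ideal.IsPrime.mem_or_mem inferInstance h) with h | h
    · exact hE h
    · exact hE' h
  · simp only [fr, map_mul] at h1 h1' ⊢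
    rw [← h1, ← h1']
    ring
  · simp only [cl, map_mul] at h2 h2' ⊢
    rw [← h2, ← h2']
    ring

omit [𝔭.IsPrime] in
theorem rsd_inv [IsFractionRing (CR 𝔭) L] {g : RF n K} {u : L} (h : Rsd 𝔭 L g u) (hu : u ≠ 0) :
    Rsd 𝔭 L g⁻¹ u⁻¹ := by
  obtain ⟨N, E, hE, h1, h2⟩ := h
  have hinj : Function.Injective (algebraMap (CR 𝔭) L) := IsFractionRing.injective (CR 𝔭) L
  have hE0 : algebraMap (CR 𝔭) L (cl 𝔭 E) ≠ 0 := by
    intro h0
    apply hE
    rw [← map_zero (algebraMap (CR 𝔭) L)] at h0
    exact Ideal.Quotient.eq_zero_iff_mem.1 (hinj h0)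
  have hN : N ∉ 𝔭 := by
    intro hN
    have h3 : cl 𝔭 N = 0 := Ideal.Quotient.eq_zero_iff_mem.2 hN
    rw [h3, map_zero] at h2
    exact mul_ne_zero hu hE0 h2
  have hE1 : fr E ≠ 0 := by
    intro h0
    have h3 : E = 0 := by
      apply IsFractionRing.injective (MvPolynomial (Fin n) K) (RF n K)
      rw [map_zero]
      exact h0
    rw [h3] at hE
    exact hE 𝔭.zero_mem
  have hN1 : fr N ≠ 0 := by
    intro h0
    have h3 : N = 0 := by
      apply IsFractionRing.injective (MvPolynomial (Fin n) K) (RF n K)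
      rw [map_zero]
      exact h0
    rw [h3] at hN
    exact hN 𝔭.zero_mem
  have hg : g ≠ 0 := by
    intro h0
    rw [h0, zero_mul] at h1
    exact hN1 h1.symm
  refine ⟨E, N, hN, ?_, ?_⟩
  · rw [← h1]
    field_simp
  · rw [← h2]
    field_simp

theorem rsd_aeval [Algebra K L] [IsScalarTower K (CR 𝔭) L] {ι : Type} {y : ι → RF n K}
    {z : ι → L} (h : ∀ i, Rsd 𝔭 L (y i) (z i)) (P : MvPolynomial ι K) :
    Rsd 𝔭 L (MvPolynomial.aeval y P) (MvPolynomial.aeval z P) := by
  induction P using MvPolynomial.induction_on with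
  | C a =>
    rw [MvPolynomial.aeval_C, MvPolynomial.aeval_C]
    exact rsd_const a
  | add p q hp hq =>
    rw [map_add, map_add]
    exact rsd_add hp hq
  | mul_X p i hp =>
    rw [map_mul, map_mul, MvPolynomial.aeval_X, MvPolynomial.aeval_X]
    exact rsd_mul hp (h i)

end

end DegrResM

open DegrResM in
theorem tRes : StmtG1 → StmtRes := by
  intro hG1 K _ n 𝔭 _ α hα L _ _ _ _ _ ρ ρb hρ
  have h1 : Algebra.EssFiniteType K (CR 𝔭) := inferInstance
  have h2 : Algebra.EssFiniteType (CR 𝔭) L :=
    Algebra.EssFiniteType.of_isLocalization L (nonZeroDivisors (CR 𝔭))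
  have h3 : Algebra.EssFiniteType K L := Algebra.EssFiniteType.comp K (CR 𝔭) L
  have h4 : Module.Finite ρb.fieldRange L := hG1.1 K n 𝔭 L ρb
  have h5 : Algebra.IsAlgebraic (CR 𝔭) L :=
    IsLocalization.isAlgebraic (R := CR 𝔭) (S := L) (nonZeroDivisors (CR 𝔭))
  have hinj : Function.Injective (algebraMap (CR 𝔭) L) := IsFractionRing.injective (CR 𝔭) L
  have h6 : FaithfulSMul (CR 𝔭) L := (faithfulSMul_iff_algebraMap_injective (CR 𝔭) L).2 hinj
  set z₀ : α → L := fun a => algebraMap (CR 𝔭) L (cl 𝔭 (MvPolynomial.X (a : Fin n))) with hz₀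
  have hz₀b : IsTranscendenceBasis K z₀ := hα.algebraMap_comp (A := L)
  set z : α → L := fun a => ρb (z₀ a) with hzdef
  have hz : AlgebraicIndependent K z := hz₀b.1.map' ρb.toRingHom.injective
  have hy : AlgebraicIndependent K (fun a : α => ρ (gen n K (a : Fin n))) :=
    (algInd_gen.map' (f := ρ) ρ.toRingHom.injective).comp (fun a : α => (a : Fin n))
      Subtype.val_injective
  have hyz : ∀ a : α, Rsd 𝔭 L (ρ (gen n K (a : Fin n))) (z a) := fun a =>
    hρ _ _ (rsd_fr (MvPolynomial.X (a : Fin n)))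
  set A : IntermediateField K L := IntermediateField.adjoin K (Set.range z₀) with hA
  have hA1 : Algebra.IsAlgebraic A L := hz₀b.isAlgebraic_field
  have hA2 : Module.Finite A L := fin_of_alg K L A hA1
  have hAz : IntermediateField.adjoin K (Set.range z) = A.map ρb := by
    rw [hA, IntermediateField.adjoin_map, ← Set.range_comp]
    rfl
  set ι : IntermediateField.adjoin K (Set.range fun a : α => ρ (gen n K (a : Fin n))) →ₐ[K] L :=
    (IntermediateField.val _).comp
      (hz.aevalEquivField.toAlgHom.comp hy.aevalEquivField.symm.toAlgHom) with hι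
  have hιa : ∀ c, ι c = ((hz.aevalEquivField (hy.aevalEquivField.symm c) :
      IntermediateField.adjoin K (Set.range z)) : L) := fun c => rfl
  have hrange : ι.fieldRange = IntermediateField.adjoin K (Set.range z) := by
    apply le_antisymm
    · rintro x ⟨c, rfl⟩
      change ι c ∈ _
      rw [hιa]
      exact SetLike.coe_mem _
    · intro x hx
      refine ⟨hy.aevalEquivField (hz.aevalEquivField.symm ⟨x, hx⟩), ?_⟩
      change ι _ = x
      rw [hιa, AlgEquiv.symm_apply_apply, AlgEquiv.apply_symm_apply]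
  have hrank : Module.finrank ι.fieldRange L =
      Module.finrank A L * Module.finrank ρb.fieldRange L := by
    rw [hrange, hAz, finrank_map]
  have hpos : 0 < Module.finrank A L := Module.finrank_pos
  have hpos' : 0 < Module.finrank ρb.fieldRange L := Module.finrank_pos
  refine ⟨ι, ?_, ?_, ?_⟩
  · intro c
    obtain ⟨P, Q, hQ, hPQ⟩ := IsFractionRing.div_surjective (A := MvPolynomial α K)
      (hy.aevalEquivField.symm c)
    have hc : (c : RF n K) = MvPolynomial.aeval (fun a : α => ρ (gen n K (a : Fin n))) P /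
        MvPolynomial.aeval (fun a : α => ρ (gen n K (a : Fin n))) Q := by
      rw [← ev_div hy, hPQ, AlgEquiv.apply_symm_apply]
    have hc' : ι c = MvPolynomial.aeval z P / MvPolynomial.aeval z Q := by
      rw [hιa, ← hPQ, ev_div hz]
    have hQ0 : MvPolynomial.aeval z Q ≠ 0 := by
      intro h0
      have h7 : Q = 0 := by
        apply hz
        rw [h0, map_zero]
      exact nonZeroDivisors.ne_zero hQ h7
    rw [hc, hc', div_eq_mul_inv, div_eq_mul_inv]
    exact rsd_mul (rsd_aeval hyz P) (rsd_inv (rsd_aeval hyz Q) hQ0)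
  · apply Module.finite_of_finrank_pos
    rw [hrank]
    exact Nat.mul_pos hpos hpos'
  · rw [hrank]
    exact Nat.le_mul_of_pos_left _ hpos

end Pool.Agent.Lib.MP_16285c_agN
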