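import Pool.Agent.Lib.MP_16285c_agN.Degr.Spec

/-!
# MP_16285c, Degr: transcendence degrees
-/

set_option autoImplicit false

namespace Pool.Agent.Lib.MP_16285c_agN

namespace DegrTrdM

open scoped IntermediateField.algebraAdjoinAdjoin

variable {K : Type} [Field K] {n : ℕ}

/-- The coordinates are a transcendence basis. -/
theorem basis_gen : IsTranscendenceBasis K (gen n K) := by
  have h := IsTranscendenceBasis.mvPolynomial (Fin n) K
  have : Algebra.IsAlgebraic (MvPolynomial (Fin n) K) (RF n K) :=
    IsLocalization.isAlgebraic (RF n K) (nonZeroDivisors (MvPolynomial (Fin n) K))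
  have h2 := h.algebraMap_comp (A := RF n K)
  exact h2

/-- `E / K(S)` algebraic implies `E` algebraic over the algebra generated by `S`. -/
theorem alg_of_adjoin (S : Set (RF n K))
    (h : Algebra.IsAlgebraic (IntermediateField.adjoin K S) (RF n K)) :
    Algebra.IsAlgebraic (Algebra.adjoin K S) (RF n K) :=
  Algebra.IsAlgebraic.trans (Algebra.adjoin K S) (IntermediateField.adjoin K S) (RF n K)

end DegrTrdM

open DegrTrdM

theorem tTrd : StmtTrd := by
  intro K _ n ι _ y s l hy hl hfin
  set κ := IntermediateField.adjoin K (Set.range y) with hκ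
  let y' : ι → κ := fun i => ⟨y i, IntermediateField.subset_adjoin K _ ⟨i, rfl⟩⟩
  have hcomp : (algebraMap κ (RF n K)) ∘ y' = y := rfl
  have hy' : AlgebraicIndependent K y' := by
    refine AlgebraicIndependent.of_comp (IsScalarTower.toAlgHom K κ (RF n K)) ?_
    exact hy
  have hind : AlgebraicIndependent K (Sum.elim l y) := by
    have h := hy'.sumElim_comp hl
    rw [hcomp] at h
    exact h
  have halg : Algebra.IsAlgebraic
      (IntermediateField.adjoin K (Set.range (Sum.elim l y))) (RF n K) := by
    have h1 : Set.range (Sum.elim l y) = Set.range y ∪ Set.range l := by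
      rw [Set.Sum.elim_range, Set.union_comm]
    have h2 := IntermediateField.adjoin_adjoin_left K (Set.range y) (Set.range l)
    constructor
    intro x
    have h3 : IsAlgebraic (IntermediateField.adjoin κ (Set.range l)) x :=
      Algebra.IsAlgebraic.isAlgebraic x
    rw [h1, ← h2]
    exact h3
  have hb : IsTranscendenceBasis K (Sum.elim l y) :=
    isTranscendenceBasis_iff_algebraicIndependent_isAlgebraic.2 ⟨hind, alg_of_adjoin _ halg⟩
  have hc := hb.cardinalMk_eq (basis_gen (K := K) (n := n))
  rw [Cardinal.mk_fintype, Cardinal.mk_fintype, Nat.cast_inj, Fintype.card_sum, Fintype.card_fin,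
    Fintype.card_fin] at hc
  omega

end Pool.Agent.Lib.MP_16285c_agN
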